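import Pool.Agent.R447.SB.Params

/-!
The basis and its representation function, asymptotically.
-/

namespace Pool.Agent.R447.SB

open Finset Filter

lemma kk_mono {i j : ℕ} (h : i ≤ j) : kk i ≤ kk j := by
  unfold kk
  exact Nat.sub_le_sub_right (Nat.log_mono_right (Nat.log_mono_right h)) _

lemma natlog_lower {m : ℕ} (hm : 1 ≤ m) : Real.log m - 1 ≤ (Nat.log 2 m : ℝ) := by
  have h1 : m < 2 ^ (Nat.log 2 m + 1) := Nat.lt_pow_succ_log_self (by norm_num) m
  have hm0 : (0 : ℝ) < m := by exact_mod_cast hm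
  have h2 : Real.log m ≤ ((Nat.log 2 m + 1 : ℕ) : ℝ) * Real.log 2 := by
    rw [← Real.log_pow]
    refine Real.log_le_log hm0 ?_
    exact_mod_cast h1.le
  have h3 : Real.log 2 ≤ 1 := by
    have := Real.log_two_lt_d9
    linarith
  have h4 : ((Nat.log 2 m + 1 : ℕ) : ℝ) * Real.log 2 ≤ ((Nat.log 2 m + 1 : ℕ) : ℝ) * 1 :=
    mul_le_mul_of_nonneg_left h3 (by positivity)
  push_cast at h2 h4
  linarith

/-- `log log log n` -/
noncomputable def lll (n : ℕ) : ℝ := Real.log (Real.log (Real.log n))

lemma tendsto_log_nat : Tendsto (fun n : ℕ => Real.log n) atTop atTop :=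
  Real.tendsto_log_atTop.comp tendsto_natCast_atTop_atTop

lemma tendsto_ll : Tendsto (fun n : ℕ => Real.log (Real.log n)) atTop atTop :=
  Real.tendsto_log_atTop.comp tendsto_log_nat

lemma tendsto_lll : Tendsto lll atTop atTop :=
  Real.tendsto_log_atTop.comp tendsto_ll

/-- `log x ≥ log y / 2` when `x ^ 2 ≥ y` -/
lemma half_log {x y : ℝ} (hy : 0 < y) (h : y ≤ x ^ 2) : Real.log y / 2 ≤ Real.log x := by
  have h1 := Real.log_le_log hy h
  rw [Real.log_pow] at h1
  push_cast at h1
  linarith

lemma kk_lower : ∀ᶠ n : ℕ in atTop, lll n / 4 ≤ (kk (Nat.log 16 n - 7) : ℝ) := by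
  have hsq : Tendsto (fun x : ℝ => (x / 3 - 8) ^ 2 / x) atTop atTop := by
    have h1 : ∀ᶠ x : ℝ in atTop, x / 36 ≤ (x / 3 - 8) ^ 2 / x := by
      filter_upwards [eventually_ge_atTop (48 : ℝ)] with x hx
      rw [le_div_iff₀ (by linarith)]
      nlinarith
    exact tendsto_atTop_mono' _ h1 (tendsto_id.atTop_div_const (by norm_num))
  filter_upwards [tendsto_log_nat.eventually (eventually_ge_atTop (100 : ℝ)),
    tendsto_ll.eventually (eventually_ge_atTop (100 : ℝ)),
    tendsto_lll.eventually (eventually_ge_atTop (100 : ℝ)), eventually_ge_atTop 1] with n h1 h2 h3 hn1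
  set N := Nat.log 16 n with hN
  have hn0 : (0 : ℝ) < n := by exact_mod_cast hn1
  -- lower bound for `N`
  have hNlow : Real.log n / 3 - 1 ≤ (N : ℝ) := by
    have e1 : n < 16 ^ (N + 1) := Nat.lt_pow_succ_log_self (by norm_num) n
    have e2 : Real.log n ≤ ((N + 1 : ℕ) : ℝ) * Real.log 16 := by
      rw [← Real.log_pow]
      refine Real.log_le_log hn0 ?_
      exact_mod_cast e1.le
    have e3 : Real.log 16 ≤ 3 := by
      have : Real.log 16 = 4 * Real.log 2 := by
        rw [show (16 : ℝ) = 2 ^ 4 by norm_num, Real.log_pow]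
        norm_num
      rw [this]
      have := Real.log_two_lt_d9
      linarith
    have e4 : ((N + 1 : ℕ) : ℝ) * Real.log 16 ≤ ((N + 1 : ℕ) : ℝ) * 3 :=
      mul_le_mul_of_nonneg_left e3 (by positivity)
    push_cast at e2 e4
    linarith
  have hN7 : 7 ≤ N := by
    have : (7 : ℝ) ≤ N := by linarith
    exact_mod_cast this
  obtain ⟨m, hm⟩ : ∃ m, N = m + 7 := ⟨N - 7, by omega⟩
  have hNm : N - 7 = m := by omega
  rw [hNm]
  have hmlow : Real.log n / 3 - 8 ≤ (m : ℝ) := by
    have : (N : ℝ) = m + 7 := by rw [hm]; push_cast; ring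
    linarith
  have hm1 : 1 ≤ m := by
    have : (1 : ℝ) ≤ m := by linarith
    exact_mod_cast this
  -- first logarithm
  have hlogm : Real.log (Real.log n) / 2 ≤ Real.log m := by
    refine half_log (by linarith) ?_
    have e1 : Real.log n ≤ (Real.log n / 3 - 8) ^ 2 := by nlinarith
    have e2 : (Real.log n / 3 - 8) ^ 2 ≤ (m : ℝ) ^ 2 := by
      refine pow_le_pow_left₀ (by linarith) hmlow 2
    linarith
  have hl1 := natlog_lower hm1
  have hl1' : Real.log (Real.log n) / 2 - 1 ≤ (Nat.log 2 m : ℝ) := by linarith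
  have hl1pos : 1 ≤ Nat.log 2 m := by
    have : (1 : ℝ) ≤ (Nat.log 2 m : ℝ) := by linarith
    exact_mod_cast this
  have hlog2 : lll n / 2 ≤ Real.log (Nat.log 2 m : ℝ) := by
    unfold lll
    refine half_log (by linarith) ?_
    have e1 : Real.log (Real.log n) ≤ (Real.log (Real.log n) / 2 - 1) ^ 2 := by nlinarith
    have e2 : (Real.log (Real.log n) / 2 - 1) ^ 2 ≤ (Nat.log 2 m : ℝ) ^ 2 :=
      pow_le_pow_left₀ (by linarith) hl1' 2
    linarith
  have hl2 := natlog_lower hl1pos
  have h4 : lll n / 2 - 21 ≤ (kk m : ℝ) := by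
    unfold kk
    have e1 : (Nat.log 2 (Nat.log 2 m) : ℝ) - 20 ≤ ((Nat.log 2 (Nat.log 2 m) - 20 : ℕ) : ℝ) := by
      have : Nat.log 2 (Nat.log 2 m) ≤ (Nat.log 2 (Nat.log 2 m) - 20) + 20 := by omega
      have : (Nat.log 2 (Nat.log 2 m) : ℝ) ≤ ((Nat.log 2 (Nat.log 2 m) - 20 : ℕ) : ℝ) + 20 := by
        exact_mod_cast this
      linarith
    linarith
  linarith

/-- **Main theorem, technical form.** -/
theorem main : ∃ A : Set ℕ, (∀ᶠ n in atTop, ∃ a ∈ A, ∃ b ∈ A, a + b = n) ∧
    ∃ C : ℝ, ∀ᶠ n : ℕ in atTop, (rep A n : ℝ) ≤ C * (Real.log n / lll n) := by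
  obtain ⟨j0, x, hj0, hx⟩ := exists_params
  refine ⟨bas 641 j0 x, ?_, 4 * (641 * 641 * 144 * 144 + 12 * 641 * 241), ?_⟩
  · filter_upwards [eventually_ge_atTop (5 * MM j0)] with n hn
    exact bas_cover j0 x n hn
  · filter_upwards [tendsto_log_nat.eventually (eventually_ge_atTop (100 : ℝ)),
      tendsto_ll.eventually (eventually_ge_atTop (100 : ℝ)),
      tendsto_lll.eventually (eventually_ge_atTop (100 : ℝ)), eventually_ge_atTop 1,
      kk_lower] with n h1 h2 h3 hn1 hkk
    set N := Nat.log 16 n with hN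
    set k := kk (N - 7) with hk
    have hkpos : (25 : ℝ) ≤ k := by linarith
    have hkpos' : 0 < k := by
      have : (0 : ℝ) < k := by linarith
      exact_mod_cast this
    have hrep := rep_bound (R := 641) (j0 := j0) le_rfl (K := Kf)
      (N0 := fun j => 2 * (641 + 1) * MM j) (x := x) (fun j => rfl) hx n
      ((6 * N + 54) / k + 1) (by
        intro j _ h4 h5
        unfold Kf
        have h6 : k ≤ kk j := kk_mono (by omega)
        have h7 : (6 * j + 54) / kk j ≤ (6 * N + 54) / k :=
          Nat.div_le_div (by omega) h6 (by omega)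
        omega)
    have hn0 : (0 : ℝ) < n := by exact_mod_cast hn1
    have hNup : (N : ℝ) ≤ Real.log n := by
      have e1 : 16 ^ N ≤ n := Nat.pow_log_le_self 16 (by omega)
      have e2 : ((N : ℕ) : ℝ) * Real.log 16 ≤ Real.log n := by
        rw [← Real.log_pow]
        refine Real.log_le_log (by positivity) ?_
        exact_mod_cast e1
      have e3 : 1 ≤ Real.log 16 := by
        have : Real.log 16 = 4 * Real.log 2 := by
          rw [show (16 : ℝ) = 2 ^ 4 by norm_num, Real.log_pow]
          norm_num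
        rw [this]
        have := Real.log_two_gt_d9
        linarith
      have e4 : (N : ℝ) * 1 ≤ (N : ℝ) * Real.log 16 := mul_le_mul_of_nonneg_left e3 (by positivity)
      linarith
    have hlll : 0 < lll n := by linarith
    have hratio : 1 ≤ Real.log n / lll n := by
      rw [one_le_div hlll]
      unfold lll
      have e1 : Real.log (Real.log (Real.log n)) ≤ Real.log (Real.log n) :=
        (Real.log_le_sub_one_of_pos (by linarith)).trans (by linarith)
      have e2 : Real.log (Real.log n) ≤ Real.log n :=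
        (Real.log_le_sub_one_of_pos (by linarith)).trans (by linarith)
      linarith
    have hdiv : (((6 * N + 54) / k + 1 : ℕ) : ℝ) ≤ 241 * (Real.log n / lll n) := by
      have e1 : (((6 * N + 54) / k : ℕ) : ℝ) ≤ ((6 * N + 54 : ℕ) : ℝ) / k := Nat.cast_div_le
      have e2 : ((6 * N + 54 : ℕ) : ℝ) / k ≤ (60 * Real.log n) / (lll n / 4) := by
        refine div_le_div₀ (by positivity) ?_ (by positivity) hkk
        push_cast
        linarith
      have e3 : (60 * Real.log n) / (lll n / 4) = 240 * (Real.log n / lll n) := by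
        field_simp
        ring
      push_cast
      linarith
    calc (rep (bas 641 j0 x) n : ℝ)
        ≤ ((4 * (641 * 641 * 144 * 144 + 12 * 641 * ((6 * N + 54) / k + 1)) : ℕ) : ℝ) := by
          exact_mod_cast hrep
      _ = 4 * (641 * 641 * 144 * 144 + 12 * 641 * (((6 * N + 54) / k + 1 : ℕ) : ℝ)) := by
          push_cast
          ring
      _ ≤ 4 * (641 * 641 * 144 * 144 * (Real.log n / lll n) +
          12 * 641 * (241 * (Real.log n / lll n))) := by
          linarith
      _ = _ := by ring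

end Pool.Agent.R447.SB
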