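import Mathlib

/-!
Finite averages over product spaces, and selection of an infinite sequence of parameters which
avoids a sequence of bad events of small total probability.
-/

namespace Pool.Agent.R447.SB

open Finset

/-- sum over a finite product of a product function -/
lemma sum_pi {ι : Type} [Fintype ι] [DecidableEq ι] (Ω : ι → Type) [∀ i, Fintype (Ω i)]
    (f : ∀ i, Ω i → ℝ) :
    (∑ x : (∀ i, Ω i), ∏ i, f i (x i)) = ∏ i, ∑ y, f i y := by
  rw [Finset.prod_univ_sum]
  simp [Fintype.piFinset_univ]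

lemma sum_update {ι : Type} [Fintype ι] [DecidableEq ι] (Ω : ι → Type) [∀ i, Fintype (Ω i)]
    (F : (∀ i, Ω i) → ℝ) (j : ι) :
    (∑ x, F x) * Fintype.card (Ω j) =
      ∑ x : (∀ i, Ω i), ∑ y : Ω j, F (Function.update x j y) := by
  rw [← Fintype.sum_prod_type' (f := fun (x : ∀ i, Ω i) (y : Ω j) => F (Function.update x j y))]
  have h : ∑ p : (∀ i, Ω i) × Ω j, F (Function.update p.1 j p.2) =
      ∑ p : (∀ i, Ω i) × Ω j, F p.1 := by
    refine Fintype.sum_equiv
      ⟨fun p => (Function.update p.1 j p.2, p.1 j), fun p => (Function.update p.1 j p.2, p.1 j),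
        ?_, ?_⟩ _ _ ?_
    · intro p
      simp
    · intro p
      simp
    · intro p
      rfl
  rw [h, Fintype.sum_prod_type]
  simp only [Finset.sum_const, Finset.card_univ, nsmul_eq_mul]
  rw [← Finset.mul_sum, mul_comm]

/-- extension of a finite sequence of parameters -/
noncomputable def ext (Ω : ℕ → Type) [∀ i, Nonempty (Ω i)] {J : ℕ} (x : ∀ i : Fin J, Ω i) :
    ∀ i, Ω i :=
  fun i => if h : i < J then x ⟨i, h⟩ else Classical.arbitrary _

lemma ext_apply (Ω : ℕ → Type) [∀ i, Nonempty (Ω i)] {J : ℕ} (x : ∀ i : Fin J, Ω i) (i : ℕ)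
    (h : i < J) : ext Ω x i = x ⟨i, h⟩ := by
  simp [ext, h]

open Classical in
theorem select (Ω : ℕ → Type) [∀ i, Fintype (Ω i)] [∀ i, Nonempty (Ω i)]
    (Bad : ℕ → (∀ i, Ω i) → Prop)
    (hloc : ∀ j (x y : ∀ i, Ω i), (∀ i ≤ j, x i = y i) → Bad j x → Bad j y)
    (b : ℕ → ℝ) (hb : ∀ J, ∑ j ∈ range J, b j < 1)
    (hbad : ∀ J j, j < J →
      ((univ.filter (fun x : (∀ i : Fin J, Ω i) => Bad j (ext Ω x))).card : ℝ) ≤
        b j * Fintype.card (∀ i : Fin J, Ω i)) :
    ∃ x : ∀ i, Ω i, ∀ j, ¬ Bad j x := by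
  let _ : ∀ i, TopologicalSpace (Ω i) := fun i => ⊥
  have _ : ∀ i, DiscreteTopology (Ω i) := fun i => ⟨rfl⟩
  set C : ℕ → Set (∀ i, Ω i) := fun J => {x | ∀ j < J, ¬ Bad j x} with hC
  have h1 : ∀ J, (C J).Nonempty := by
    intro J
    by_contra hne
    have hall : ∀ x : (∀ i : Fin J, Ω i), ∃ j < J, Bad j (ext Ω x) := by
      intro x
      by_contra hx
      push Not at hx
      exact hne ⟨ext Ω x, hx⟩
    have hcover : (univ : Finset (∀ i : Fin J, Ω i)) ⊆
        (range J).biUnion fun j => univ.filter (fun x : (∀ i : Fin J, Ω i) => Bad j (ext Ω x)) := by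
      intro x _
      obtain ⟨j, hj, hjb⟩ := hall x
      simp only [mem_biUnion, mem_range, mem_filter, mem_univ, true_and]
      exact ⟨j, hj, hjb⟩
    have hcard := (card_le_card hcover).trans card_biUnion_le
    have hcard' : ((univ : Finset (∀ i : Fin J, Ω i)).card : ℝ) ≤
        ∑ j ∈ range J, b j * Fintype.card (∀ i : Fin J, Ω i) := by
      calc ((univ : Finset (∀ i : Fin J, Ω i)).card : ℝ)
          ≤ ((∑ j ∈ range J,
            (univ.filter (fun x : (∀ i : Fin J, Ω i) => Bad j (ext Ω x))).card : ℕ) : ℝ) := by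
            exact_mod_cast hcard
        _ ≤ _ := by
            push_cast
            exact sum_le_sum fun j hj => hbad J j (mem_range.1 hj)
    rw [← sum_mul, card_univ] at hcard'
    have hpos : (0 : ℝ) < Fintype.card (∀ i : Fin J, Ω i) := by
      exact_mod_cast Fintype.card_pos
    have := hb J
    nlinarith
  have h2 : ∀ J, IsClosed (C J) := by
    intro J
    have : C J = ⋂ j ∈ Set.Iio J, {x | ¬ Bad j x} := by
      ext x
      simp [hC]
    rw [this]
    refine isClosed_biInter fun j _ => ?_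
    have hcont : Continuous (fun x : (∀ i, Ω i) => fun i : Fin (j + 1) => x i) :=
      continuous_pi fun i => continuous_apply _
    have hpre : {x | ¬ Bad j x} = (fun x : (∀ i, Ω i) => fun i : Fin (j + 1) => x i) ⁻¹'
        {y | ∃ x : (∀ i, Ω i), (fun i : Fin (j + 1) => x i) = y ∧ ¬ Bad j x} := by
      ext x
      constructor
      · intro hx
        exact ⟨x, rfl, hx⟩
      · rintro ⟨x', hx', hb'⟩ hbx
        apply hb'
        refine hloc j x x' (fun i hi => ?_) hbx
        exact (congrFun hx' ⟨i, by omega⟩).symm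
    rw [hpre]
    exact (isClosed_discrete _).preimage hcont
  have h3 : ∀ J, C (J + 1) ⊆ C J := fun J x hx j hj => hx j (by omega)
  obtain ⟨x, hx⟩ := IsCompact.nonempty_iInter_of_sequence_nonempty_isCompact_isClosed C h3 h1
    (h2 0).isCompact h2
  refine ⟨x, fun j => ?_⟩
  exact (Set.mem_iInter.1 hx (j + 1)) j (by omega)

end Pool.Agent.R447.SB
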