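import Pool.Agent.R447.SB.Select

/-!
The basis obtained from good parameters.
-/

namespace Pool.Agent.R447.SB

open Finset

/-- the union of all scales -/
def bas (R j0 : ℕ) (x : ∀ i, Om i) : Set ℕ := {a | ∃ i, j0 ≤ i ∧ a ∈ AS R i (x i)}

/-- size of scale `i` -/
noncomputable def MM (i : ℕ) : ℕ := pr i ^ 2 * pr i ^ 2

lemma MM_lt {i j : ℕ} (h : i < j) : MM i < MM j := by
  unfold MM
  have h1 : pr i ^ 2 < pr j ^ 2 := Nat.pow_lt_pow_left (pr_lt h) (by norm_num)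
  exact Nat.mul_lt_mul'' h1 h1

lemma MM_le {i j : ℕ} (h : i ≤ j) : MM i ≤ MM j := by
  rcases Nat.eq_or_lt_of_le h with rfl | h
  · exact le_rfl
  · exact (MM_lt h).le

lemma MM_ge (i : ℕ) : 16 ^ (i + 4) < MM i := by
  unfold MM
  have h := pr_gt i
  have h1 : (2 ^ (i + 4)) ^ 2 < pr i ^ 2 := Nat.pow_lt_pow_left h (by norm_num)
  calc 16 ^ (i + 4) = (2 ^ (i + 4)) ^ 2 * (2 ^ (i + 4)) ^ 2 := by
        rw [← pow_mul, ← pow_add, show (16 : ℕ) = 2 ^ 4 by norm_num, ← pow_mul]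
        congr 1
        ring
    _ < pr i ^ 2 * pr i ^ 2 := Nat.mul_lt_mul'' h1 h1

lemma MM_up (i : ℕ) : MM i ≤ 16 ^ (i + 5) := by
  unfold MM
  have h1 : pr i ^ 2 ≤ (2 ^ (i + 5)) ^ 2 := Nat.pow_le_pow_left (pr_le i) 2
  calc pr i ^ 2 * pr i ^ 2 ≤ (2 ^ (i + 5)) ^ 2 * (2 ^ (i + 5)) ^ 2 := Nat.mul_le_mul h1 h1
    _ = 16 ^ (i + 5) := by
        rw [← pow_mul, ← pow_add, show (16 : ℕ) = 2 ^ 4 by norm_num, ← pow_mul]
        congr 1
        ring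

lemma AS_lower {R i : ℕ} {y : Om i} {a : ℕ} (ha : a ∈ AS R i y) : MM i ≤ a :=
  scale_lower (cvs i) ha

lemma AS_upper {R i : ℕ} {y : Om i} {a : ℕ} (ha : a ∈ AS R i y) : a < (R + 1) * MM i :=
  scale_upper (cvs i) y.1.2 ha

lemma cover_scale (i : ℕ) (y : Om i) {n : ℕ} (h1 : 5 * MM i ≤ n) (h2 : n < 5 * MM (i + 1)) :
    ∃ a ∈ AS 641 i y, ∃ b ∈ AS 641 i y, a + b = n := by
  refine scale_cover (cvs i) y.1.2.le (pr_pos i) _ h1 ?_
  have h3 : MM (i + 1) ≤ 256 * MM i := by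
    calc MM (i + 1) ≤ 16 ^ (i + 1 + 5) := MM_up _
      _ = 256 * 16 ^ (i + 4) := by ring
      _ ≤ 256 * MM i := Nat.mul_le_mul_left _ (MM_ge i).le
  have h4 : 0 < MM i := lt_of_le_of_lt (Nat.zero_le _) (MM_ge i)
  have h5 : (2 * 641 - 1) * (pr i ^ 2 * pr i ^ 2) = 1281 * MM i := rfl
  rw [h5]
  omega

lemma bas_cover (j0 : ℕ) (x : ∀ i, Om i) (n : ℕ) (hn : 5 * MM j0 ≤ n) :
    ∃ a ∈ bas 641 j0 x, ∃ b ∈ bas 641 j0 x, a + b = n := by
  have hex : ∃ k, n < 5 * MM (j0 + k) := by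
    refine ⟨n, ?_⟩
    have h1 := MM_ge (j0 + n)
    have h2 : n < 16 ^ n := Nat.lt_pow_self (by norm_num)
    have h3 : 16 ^ n ≤ 16 ^ (j0 + n + 4) := Nat.pow_le_pow_right (by norm_num) (by omega)
    omega
  classical
  set k := Nat.find hex with hk
  have hk1 : n < 5 * MM (j0 + k) := Nat.find_spec hex
  have hk0 : k ≠ 0 := by
    intro h
    rw [h] at hk1
    simp only [add_zero] at hk1
    omega
  have hk2 : ¬ n < 5 * MM (j0 + (k - 1)) := Nat.find_min hex (by omega)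
  obtain ⟨a, ha, b, hb, hab⟩ := cover_scale (j0 + (k - 1)) (x (j0 + (k - 1))) (n := n) (by omega)
    (by rw [show j0 + (k - 1) + 1 = j0 + k by omega]; exact hk1)
  exact ⟨a, ⟨_, by omega, ha⟩, b, ⟨_, by omega, hb⟩, hab⟩

/-- number of ordered representations -/
noncomputable def rep (A : Set ℕ) (n : ℕ) : ℕ :=
  {q : ℕ × ℕ | q.1 ∈ A ∧ q.2 ∈ A ∧ q.1 + q.2 = n}.ncard

lemma scale_range {R i j n a b : ℕ} (hR : R ≤ 641) (hij : i ≤ j) {y : Om i} {y' : Om j}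
    (ha : a ∈ AS R i y) (hb : b ∈ AS R j y') (hab : a + b = n) :
    n < 2 * (R + 1) * MM j ∧ j + 4 ≤ Nat.log 16 n ∧ Nat.log 16 n ≤ j + 7 := by
  have h1 := AS_upper ha
  have h2 := AS_upper hb
  have h3 := AS_lower hb
  have h4 : (R + 1) * MM i ≤ (R + 1) * MM j := Nat.mul_le_mul_left _ (MM_le hij)
  have h5 : n < 2 * (R + 1) * MM j := by
    have : 2 * (R + 1) * MM j = (R + 1) * MM j + (R + 1) * MM j := by ring
    omega
  have hn0 : n ≠ 0 := by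
    have := MM_ge j
    have : 0 < 16 ^ (j + 4) := by positivity
    omega
  refine ⟨h5, ?_, ?_⟩
  · rw [Nat.le_log_iff_pow_le (by norm_num) hn0]
    have := MM_ge j
    omega
  · have h6 : n < 16 ^ (j + 8) := by
      calc n < 2 * (R + 1) * MM j := h5
        _ ≤ 4096 * MM j := Nat.mul_le_mul_right _ (by omega)
        _ ≤ 4096 * 16 ^ (j + 5) := Nat.mul_le_mul_left _ (MM_up j)
        _ = 16 ^ (j + 8) := by ring
    have h7 := (Nat.log_lt_iff_lt_pow (b := 16) (by norm_num) hn0).2 h6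
    omega

/-- the representation function of the basis -/
theorem rep_bound {R j0 : ℕ} (hR : R ≤ 641) {K N0 : ℕ → ℕ} {x : ∀ i, Om i}
    (hN0 : ∀ j, N0 j = 2 * (R + 1) * MM j)
    (hx : ∀ j, j0 ≤ j → ¬ BadCross (cvs j) (SS R j0 j x) R (N0 j) (K j) (x j).1
      (fun ι => ((x j).2 ι : ℕ))) (n Kb : ℕ)
    (hKb : ∀ j, j0 ≤ j → j + 4 ≤ Nat.log 16 n → Nat.log 16 n ≤ j + 7 → K j ≤ Kb) :
    rep (bas R j0 x) n ≤ 4 * (R * R * 144 * 144 + 12 * R * Kb) := by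
  classical
  set N := Nat.log 16 n with hN
  set J : Finset ℕ := (Icc (N - 7) (N - 4)).filter (fun j => j0 ≤ j ∧ j + 4 ≤ N ∧ N ≤ j + 7 ∧
    n < 2 * (R + 1) * MM j) with hJ
  set P0 : ℕ → Finset (ℕ × ℕ) := fun j =>
    (AS R j (x j) ×ˢ AS R j (x j)).filter (fun q => q.1 + q.2 = n) with hP0
  set Q : ℕ → Finset ℕ := fun j =>
    (SS R j0 j x).filter (fun a => ∃ b ∈ AS R j (x j), a + b = n) with hQ
  set P1 : ℕ → Finset (ℕ × ℕ) := fun j => (Q j).image (fun a => (a, n - a)) with hP1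
  set P2 : ℕ → Finset (ℕ × ℕ) := fun j => (Q j).image (fun a => (n - a, a)) with hP2
  have hsub : {q : ℕ × ℕ | q.1 ∈ bas R j0 x ∧ q.2 ∈ bas R j0 x ∧ q.1 + q.2 = n} ⊆
      ((J.biUnion (fun j => P0 j ∪ (P1 j ∪ P2 j)) : Finset (ℕ × ℕ)) : Set (ℕ × ℕ)) := by
    rintro ⟨a, b⟩ ⟨⟨i, hi, ha⟩, ⟨j, hj, hb⟩, hab⟩
    simp only at ha hb hab
    rw [mem_coe, mem_biUnion]
    rcases lt_trichotomy i j with hij | hij | hij
    · obtain ⟨h1, h2, h3⟩ := scale_range hR hij.le ha hb hab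
      refine ⟨j, mem_filter.2 ⟨mem_Icc.2 ⟨by omega, by omega⟩, hj, h2, h3, h1⟩, ?_⟩
      rw [mem_union, mem_union]
      right; left
      rw [hP1, mem_image]
      refine ⟨a, mem_filter.2 ⟨?_, b, hb, hab⟩, ?_⟩
      · unfold SS
        rw [mem_biUnion]
        exact ⟨i, mem_Ico.2 ⟨hi, hij⟩, ha⟩
      · rw [← hab, Nat.add_sub_cancel_left]
    · subst hij
      obtain ⟨h1, h2, h3⟩ := scale_range hR le_rfl ha hb hab
      refine ⟨i, mem_filter.2 ⟨mem_Icc.2 ⟨by omega, by omega⟩, hj, h2, h3, h1⟩, ?_⟩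
      rw [mem_union]
      left
      rw [hP0, mem_filter, mem_product]
      exact ⟨⟨ha, hb⟩, hab⟩
    · have hba : b + a = n := by omega
      obtain ⟨h1, h2, h3⟩ := scale_range hR hij.le hb ha hba
      refine ⟨i, mem_filter.2 ⟨mem_Icc.2 ⟨by omega, by omega⟩, hi, h2, h3, h1⟩, ?_⟩
      rw [mem_union, mem_union]
      right; right
      rw [hP2, mem_image]
      refine ⟨b, mem_filter.2 ⟨?_, a, ha, hba⟩, ?_⟩
      · unfold SS
        rw [mem_biUnion]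
        exact ⟨j, mem_Ico.2 ⟨hj, hij⟩, hb⟩
      · rw [← hab, Nat.add_sub_cancel]
  have hc : ∀ j ∈ J, (P0 j ∪ (P1 j ∪ P2 j)).card ≤ R * R * 144 * 144 + 12 * R * Kb := by
    intro j hj
    obtain ⟨-, hj0, h2, h3, h4⟩ := mem_filter.1 hj
    have hK := hKb j hj0 h2 h3
    have e0 : (P0 j).card ≤ R * R * 144 * 144 := scale_self (cvs j) (pr_pos j) R _ _ n
    have eQ : (Q j).card ≤ 6 * R * Kb := by
      have := cross_good (cvs j) (SS R j0 j x) R (N0 j) (K j) _ _ (hx j hj0) n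
        (by rw [hN0]; exact h4)
      calc (Q j).card ≤ 6 * R * K j := this
        _ ≤ 6 * R * Kb := Nat.mul_le_mul_left _ hK
    have e1 : (P1 j).card ≤ 6 * R * Kb := card_image_le.trans eQ
    have e2 : (P2 j).card ≤ 6 * R * Kb := card_image_le.trans eQ
    calc (P0 j ∪ (P1 j ∪ P2 j)).card ≤ (P0 j).card + ((P1 j).card + (P2 j).card) :=
          (card_union_le _ _).trans (Nat.add_le_add_left (card_union_le _ _) _)
      _ ≤ R * R * 144 * 144 + (6 * R * Kb + 6 * R * Kb) :=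
          Nat.add_le_add e0 (Nat.add_le_add e1 e2)
      _ = _ := by ring
  have hJc : J.card ≤ 4 := by
    refine (card_filter_le _ _).trans ?_
    rw [Nat.card_Icc]
    omega
  unfold rep
  calc _ ≤ ((J.biUnion (fun j => P0 j ∪ (P1 j ∪ P2 j)) : Finset (ℕ × ℕ)) : Set (ℕ × ℕ)).ncard :=
        Set.ncard_le_ncard hsub (finite_toSet _)
    _ = (J.biUnion (fun j => P0 j ∪ (P1 j ∪ P2 j))).card := Set.ncard_coe_finset _
    _ ≤ ∑ j ∈ J, (P0 j ∪ (P1 j ∪ P2 j)).card := card_biUnion_le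
    _ ≤ ∑ j ∈ J, (R * R * 144 * 144 + 12 * R * Kb) := sum_le_sum hc
    _ = J.card * (R * R * 144 * 144 + 12 * R * Kb) := by rw [sum_const, smul_eq_mul]
    _ ≤ 4 * (R * R * 144 * 144 + 12 * R * Kb) := Nat.mul_le_mul_right _ hJc

end Pool.Agent.R447.SB
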