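import Pool.Agent.R447.SB.Cross

/-!
Exponential moments of the number of elements of the random set of one scale in a residue class.
-/

namespace Pool.Agent.R447.SB

open Finset

variable {p : ℕ} (cv : Curve p)

/-- number of elements of the set of one scale in the residue class of `ρ` modulo `q` -/
def cls (R q ρ τ : ℕ) (t : Idx p → ℕ) : ℕ :=
  ((scaleSet cv R τ t).filter (fun a => a ≡ ρ [MOD q])).card

/-- number of `s` such that the block `(s, ι)` meets the class -/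
noncomputable def xs (R q ρ τ : ℕ) (ι : Idx p) (u : ℕ) : ℕ :=
  open Classical in
  ((Ico 1 R).filter (fun s => ∃ κ : Idx p,
    τ + cv.w ι + p ^ 2 * ((cv.w κ + u) % p ^ 2) + s * (p ^ 2 * p ^ 2) ≡ ρ [MOD q])).card

/-- number of `s` such that the block `(s, ι)` can meet the class -/
noncomputable def ws (R q ρ τ : ℕ) (ι : Idx p) : ℕ :=
  open Classical in
  ((Ico 1 R).filter (fun s => ∃ z < p ^ 2,
    τ + cv.w ι + p ^ 2 * z + s * (p ^ 2 * p ^ 2) ≡ ρ [MOD q])).card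

lemma z_unique {m q a b z z' ρ : ℕ} (hc : Nat.Coprime m q) (hmq : m ≤ q) (hz : z < m) (hz' : z' < m)
    (h1 : a + m * z + b ≡ ρ [MOD q]) (h2 : a + m * z' + b ≡ ρ [MOD q]) : z = z' := by
  have h3 : a + m * z + b ≡ a + m * z' + b [MOD q] := h1.trans h2.symm
  have h4 : m * z ≡ m * z' [MOD q] := by
    have := Nat.ModEq.add_right_cancel' b h3
    exact Nat.ModEq.add_left_cancel' a this
  have h5 : z ≡ z' [MOD q] := Nat.ModEq.cancel_left_of_coprime hc.symm h4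
  unfold Nat.ModEq at h5
  rwa [Nat.mod_eq_of_lt (by omega), Nat.mod_eq_of_lt (by omega)] at h5

lemma cls_le {R q ρ τ : ℕ} (hp : 0 < p) (hc : Nat.Coprime (p ^ 2) q) (hmq : p ^ 2 ≤ q)
    (t : Idx p → ℕ) : cls cv R q ρ τ t ≤ ∑ ι, xs cv R q ρ τ ι (t ι) := by
  classical
  have hm0 : 0 < p ^ 2 := by positivity
  have hex : ∀ a ∈ (scaleSet cv R τ t).filter (fun a => a ≡ ρ [MOD q]),
      ∃ r : (Σ _ : Idx p, ℕ), r.2 ∈ Ico 1 R ∧ ∃ κ, el cv τ t r.2 r.1 κ = a := by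
    intro a ha
    obtain ⟨s, ι, κ, h1, h2, h3⟩ := (mem_scaleSet cv).1 (mem_filter.1 ha).1
    exact ⟨⟨ι, s⟩, mem_Ico.2 ⟨h1, h2⟩, κ, h3⟩
  have : Nonempty (Σ _ : Idx p, ℕ) := ⟨⟨((0, false), ⟨0, hp⟩), 0⟩⟩
  have : Nonempty (Idx p) := ⟨((0, false), ⟨0, hp⟩)⟩
  choose! f hf1 hf2 using hex
  choose! g hg using hf2
  set T : Finset (Σ _ : Idx p, ℕ) := (univ : Finset (Idx p)).sigma (fun ι =>
    (Ico 1 R).filter (fun s => ∃ κ : Idx p,
    τ + cv.w ι + p ^ 2 * ((cv.w κ + t ι) % p ^ 2) + s * (p ^ 2 * p ^ 2) ≡ ρ [MOD q])) with hT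
  have hTc : T.card = ∑ ι, xs cv R q ρ τ ι (t ι) := by
    rw [hT, card_sigma]
    rfl
  rw [← hTc]
  unfold cls
  refine card_le_card_of_injOn f ?_ ?_
  · intro a ha
    rw [mem_coe] at ha ⊢
    rw [hT, mem_sigma, mem_filter]
    refine ⟨mem_univ _, hf1 a ha, g a, ?_⟩
    have h1 := hg a ha
    have h2 := (mem_filter.1 ha).2
    rw [← h1] at h2
    exact h2
  · intro a ha b hb hab
    rw [mem_coe] at ha hb
    have h1 := hg a ha
    have h2 := hg b hb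
    have h3 := (mem_filter.1 ha).2
    have h4 := (mem_filter.1 hb).2
    rw [← h1] at h3
    rw [← h2] at h4
    rw [← hab] at h2 h4
    unfold el at h1 h2 h3 h4
    have hz := z_unique hc hmq (Nat.mod_lt _ hm0) (Nat.mod_lt _ hm0) h3 h4
    rw [← h1, ← h2, hz]

lemma xs_le (R q ρ τ : ℕ) (ι : Idx p) (u : ℕ) : xs cv R q ρ τ ι u ≤ R := by
  unfold xs
  refine (card_filter_le _ _).trans ?_
  simp

lemma ws_le (R q ρ τ : ℕ) (ι : Idx p) : ws cv R q ρ τ ι ≤ R := by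
  unfold ws
  refine (card_filter_le _ _).trans ?_
  simp

lemma xs_sum {R q ρ τ : ℕ} (hp : 0 < p) (hc : Nat.Coprime (p ^ 2) q) (hmq : p ^ 2 ≤ q) (ι : Idx p) :
    ∑ u ∈ range (p ^ 2), xs cv R q ρ τ ι u ≤ 6 * p * ws cv R q ρ τ ι := by
  classical
  have hm0 : 0 < p ^ 2 := by positivity
  have h1 : ∑ u ∈ range (p ^ 2), xs cv R q ρ τ ι u = ∑ s ∈ Ico 1 R, ((range (p ^ 2)).filter
      (fun u => ∃ κ : Idx p,
        τ + cv.w ι + p ^ 2 * ((cv.w κ + u) % p ^ 2) + s * (p ^ 2 * p ^ 2) ≡ ρ [MOD q])).card := by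
    unfold xs
    simp_rw [card_filter]
    rw [sum_comm]
  rw [h1]
  have h2 : ∀ s ∈ Ico 1 R, ((range (p ^ 2)).filter (fun u => ∃ κ : Idx p,
      τ + cv.w ι + p ^ 2 * ((cv.w κ + u) % p ^ 2) + s * (p ^ 2 * p ^ 2) ≡ ρ [MOD q])).card ≤
      if (∃ z < p ^ 2, τ + cv.w ι + p ^ 2 * z + s * (p ^ 2 * p ^ 2) ≡ ρ [MOD q]) then 6 * p
        else 0 := by
    intro s _
    split_ifs with h
    · have hsub : (range (p ^ 2)).filter (fun u => ∃ κ : Idx p,
          τ + cv.w ι + p ^ 2 * ((cv.w κ + u) % p ^ 2) + s * (p ^ 2 * p ^ 2) ≡ ρ [MOD q]) ⊆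
          (univ : Finset (Idx p)).biUnion (fun κ => (range (p ^ 2)).filter (fun u =>
            τ + cv.w ι + p ^ 2 * ((cv.w κ + u) % p ^ 2) + s * (p ^ 2 * p ^ 2) ≡ ρ [MOD q])) := by
        intro u hu
        rw [mem_filter] at hu
        obtain ⟨hu1, κ, hκ⟩ := hu
        rw [mem_biUnion]
        exact ⟨κ, mem_univ _, mem_filter.2 ⟨hu1, hκ⟩⟩
      refine (card_le_card hsub).trans (card_biUnion_le.trans ?_)
      calc ∑ κ : Idx p, _ ≤ ∑ κ : Idx p, 1 := by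
            refine sum_le_sum fun κ _ => ?_
            rw [card_le_one]
            intro u hu u' hu'
            rw [mem_filter, mem_range] at hu hu'
            apply shift_inj hu.1 hu'.1 (a := cv.w κ)
            exact z_unique hc hmq (Nat.mod_lt _ hm0) (Nat.mod_lt _ hm0) hu.2 hu'.2
        _ = 6 * p := by rw [sum_const, card_univ, card_idx]; simp
    · rw [Nat.le_zero, card_eq_zero, filter_eq_empty_iff]
      rintro u _ ⟨κ, hκ⟩
      exact h ⟨_, Nat.mod_lt _ hm0, hκ⟩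
  refine (sum_le_sum h2).trans ?_
  rw [← sum_filter, sum_const, smul_eq_mul, mul_comm]
  rfl

lemma xs_moment {R q ρ τ : ℕ} (hp : 0 < p) (hc : Nat.Coprime (p ^ 2) q) (hmq : p ^ 2 ≤ q)
    (ι : Idx p) {B : ℝ} (hB : 1 ≤ B) :
    ∑ u ∈ range (p ^ 2), B ^ (xs cv R q ρ τ ι u) ≤
      (p : ℝ) ^ 2 * Real.exp (6 * B ^ R * ws cv R q ρ τ ι / p) := by
  have hp' : (0 : ℝ) < p := by exact_mod_cast hp
  have h1 : ∀ u, B ^ (xs cv R q ρ τ ι u) ≤ 1 + B ^ R * xs cv R q ρ τ ι u := by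
    intro u
    rcases Nat.eq_zero_or_pos (xs cv R q ρ τ ι u) with h | h
    · rw [h]; simp
    · have h2 : B ^ (xs cv R q ρ τ ι u) ≤ B ^ R := pow_le_pow_right₀ hB (xs_le cv R q ρ τ ι u)
      have h3 : (1 : ℝ) ≤ xs cv R q ρ τ ι u := by exact_mod_cast h
      have h4 : B ^ R * 1 ≤ B ^ R * xs cv R q ρ τ ι u :=
        mul_le_mul_of_nonneg_left h3 (by positivity)
      linarith
  have h2 : ∑ u ∈ range (p ^ 2), (xs cv R q ρ τ ι u : ℝ) ≤ 6 * p * ws cv R q ρ τ ι := by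
    exact_mod_cast xs_sum cv hp hc hmq ι
  calc ∑ u ∈ range (p ^ 2), B ^ (xs cv R q ρ τ ι u)
      ≤ ∑ u ∈ range (p ^ 2), (1 + B ^ R * xs cv R q ρ τ ι u) := sum_le_sum fun u _ => h1 u
    _ = (p : ℝ) ^ 2 + B ^ R * ∑ u ∈ range (p ^ 2), (xs cv R q ρ τ ι u : ℝ) := by
        rw [sum_add_distrib, ← mul_sum]
        simp
    _ ≤ (p : ℝ) ^ 2 + B ^ R * (6 * p * ws cv R q ρ τ ι) := by
        gcongr
    _ = (p : ℝ) ^ 2 * (6 * B ^ R * ws cv R q ρ τ ι / p + 1) := by field_simp; ring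
    _ ≤ _ := mul_le_mul_of_nonneg_left (Real.add_one_le_exp _) (by positivity)

lemma class_inner {R q ρ τ : ℕ} (hp : 0 < p) (hc : Nat.Coprime (p ^ 2) q) (hmq : p ^ 2 ≤ q)
    {B : ℝ} (hB : 1 ≤ B) :
    ∑ t : (Idx p → Fin (p ^ 2)), B ^ (cls cv R q ρ τ (fun ι => (t ι : ℕ))) ≤
      ((p : ℝ) ^ 2) ^ (6 * p) * Real.exp (6 * B ^ R * (∑ ι, ws cv R q ρ τ ι : ℕ) / p) := by
  classical
  calc ∑ t : (Idx p → Fin (p ^ 2)), B ^ (cls cv R q ρ τ (fun ι => (t ι : ℕ)))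
      ≤ ∑ t : (Idx p → Fin (p ^ 2)), ∏ ι : Idx p, B ^ (xs cv R q ρ τ ι (t ι : ℕ)) := by
        refine sum_le_sum fun t _ => ?_
        rw [prod_pow_eq_pow_sum]
        exact pow_le_pow_right₀ hB (cls_le cv hp hc hmq _)
    _ = ∏ ι : Idx p, ∑ y : Fin (p ^ 2), B ^ (xs cv R q ρ τ ι (y : ℕ)) :=
        sum_pi (fun _ : Idx p => Fin (p ^ 2)) (fun ι y => B ^ (xs cv R q ρ τ ι (y : ℕ)))
    _ ≤ ∏ ι : Idx p, ((p : ℝ) ^ 2 * Real.exp (6 * B ^ R * ws cv R q ρ τ ι / p)) := by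
        refine prod_le_prod (fun ι _ => sum_nonneg fun _ _ => by positivity) (fun ι _ => ?_)
        rw [Fin.sum_univ_eq_sum_range (fun u => B ^ (xs cv R q ρ τ ι u)) (p ^ 2)]
        exact xs_moment cv hp hc hmq ι hB
    _ = _ := by
        rw [prod_mul_distrib, prod_const, card_univ, card_idx, ← Real.exp_sum]
        congr 2
        push_cast
        rw [mul_sum, sum_div]

/-- integers below `N` in a residue class -/
lemma card_class (N q c : ℕ) (hq : 0 < q) :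
    ((range N).filter (fun τ => τ ≡ c [MOD q])).card ≤ N / q + 1 := by
  have h : ((range N).filter (fun τ => τ ≡ c [MOD q])).card ≤ (range (N / q + 1)).card := by
    refine card_le_card_of_injOn (fun τ => τ / q) ?_ ?_
    · intro τ hτ
      rw [mem_coe, mem_filter, mem_range] at hτ
      rw [mem_coe, mem_range]
      exact Nat.lt_succ_of_le (Nat.div_le_div_right hτ.1.le)
    · intro τ hτ τ' hτ' h
      rw [mem_coe, mem_filter] at hτ hτ'
      have h1 : τ % q = τ' % q := hτ.2.trans hτ'.2.symm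
      simp only at h
      rw [← Nat.div_add_mod τ q, ← Nat.div_add_mod τ' q, h, h1]
  simpa using h

lemma ws_sum {R q ρ : ℕ} (hq : 0 < q) :
    ∑ τ ∈ range (p ^ 2 * p ^ 2), ∑ ι, ws cv R q ρ τ ι ≤
      6 * p * (R * (p ^ 2 * (p ^ 2 * p ^ 2 / q + 1))) := by
  classical
  rw [sum_comm]
  calc ∑ ι : Idx p, ∑ τ ∈ range (p ^ 2 * p ^ 2), ws cv R q ρ τ ι
      ≤ ∑ ι : Idx p, R * (p ^ 2 * (p ^ 2 * p ^ 2 / q + 1)) := by
        refine sum_le_sum fun ι _ => ?_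
        have h1 : ∑ τ ∈ range (p ^ 2 * p ^ 2), ws cv R q ρ τ ι = ∑ s ∈ Ico 1 R,
            ((range (p ^ 2 * p ^ 2)).filter (fun τ => ∃ z < p ^ 2,
              τ + cv.w ι + p ^ 2 * z + s * (p ^ 2 * p ^ 2) ≡ ρ [MOD q])).card := by
          unfold ws
          simp_rw [card_filter]
          rw [sum_comm]
        rw [h1]
        calc ∑ s ∈ Ico 1 R, _ ≤ ∑ s ∈ Ico 1 R, (p ^ 2 * (p ^ 2 * p ^ 2 / q + 1)) := by
              refine sum_le_sum fun s _ => ?_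
              have hsub : (range (p ^ 2 * p ^ 2)).filter (fun τ => ∃ z < p ^ 2,
                  τ + cv.w ι + p ^ 2 * z + s * (p ^ 2 * p ^ 2) ≡ ρ [MOD q]) ⊆
                  (range (p ^ 2)).biUnion (fun z => (range (p ^ 2 * p ^ 2)).filter (fun τ =>
                    τ ≡ ρ + (q - 1) * (cv.w ι + p ^ 2 * z + s * (p ^ 2 * p ^ 2)) [MOD q])) := by
                intro τ hτ
                rw [mem_filter] at hτ
                obtain ⟨hτ1, z, hz, hτ2⟩ := hτ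
                rw [mem_biUnion]
                refine ⟨z, mem_range.2 hz, mem_filter.2 ⟨hτ1, ?_⟩⟩
                set y := cv.w ι + p ^ 2 * z + s * (p ^ 2 * p ^ 2) with hy
                have e1 : τ + cv.w ι + p ^ 2 * z + s * (p ^ 2 * p ^ 2) = τ + y := by
                  rw [hy]; ring
                rw [e1] at hτ2
                have e2 := Nat.ModEq.add_right ((q - 1) * y) hτ2
                have e3 : τ + y + (q - 1) * y = τ + q * y := by
                  obtain ⟨q', hq'⟩ : ∃ q', q = q' + 1 := ⟨q - 1, by omega⟩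
                  rw [hq', Nat.add_sub_cancel]
                  ring
                rw [e3] at e2
                refine Nat.ModEq.trans ?_ e2
                exact (Nat.modEq_iff_dvd' (by omega)).2 (by simp)
              refine (card_le_card hsub).trans (card_biUnion_le.trans ?_)
              calc ∑ z ∈ range (p ^ 2), _ ≤ ∑ z ∈ range (p ^ 2), (p ^ 2 * p ^ 2 / q + 1) :=
                    sum_le_sum fun z _ => card_class _ _ _ hq
                _ = p ^ 2 * (p ^ 2 * p ^ 2 / q + 1) := by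
                    rw [sum_const, card_range, smul_eq_mul]
          _ ≤ R * (p ^ 2 * (p ^ 2 * p ^ 2 / q + 1)) := by
              rw [sum_const, smul_eq_mul, Nat.card_Ico]
              exact Nat.mul_le_mul_right _ (Nat.sub_le _ _)
    _ = 6 * p * (R * (p ^ 2 * (p ^ 2 * p ^ 2 / q + 1))) := by
        rw [sum_const, card_univ, card_idx, smul_eq_mul]

lemma exp_convex {E y : ℝ} (hy0 : 0 ≤ y) (hy1 : y ≤ 1) : Real.exp (E * y) ≤ 1 + y * Real.exp E := by
  have h := convexOn_exp.2 (Set.mem_univ (0 : ℝ)) (Set.mem_univ E) (by linarith : (0 : ℝ) ≤ 1 - y)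
    hy0 (by ring)
  simp only [smul_eq_mul, mul_zero, zero_add, Real.exp_zero, mul_one] at h
  rw [mul_comm E y]
  linarith

/-- The exponential moment of the number of elements of the random set in a residue class. -/
theorem class_moment {R q ρ : ℕ} (hp : 0 < p) (hR : 0 < R) (hc : Nat.Coprime (p ^ 2) q)
    (hmq : p ^ 2 ≤ q) (hqM : q ≤ (R + 1) * (p ^ 2 * p ^ 2)) {B : ℝ} (hB : 1 ≤ B) :
    ∑ τ ∈ range (p ^ 2 * p ^ 2), ∑ t : (Idx p → Fin (p ^ 2)),
      B ^ (cls cv R q ρ τ (fun ι => (t ι : ℕ))) ≤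
      ((p : ℝ) ^ 2 * p ^ 2) * ((p : ℝ) ^ 2) ^ (6 * p) *
        (1 + (R + 2) * ((p : ℝ) ^ 2 / q) * Real.exp (36 * R * B ^ R)) := by
  have hp' : (0 : ℝ) < p := by exact_mod_cast hp
  have hR' : (0 : ℝ) < R := by exact_mod_cast hR
  have hq : 0 < q := lt_of_lt_of_le (by positivity) hmq
  have hq' : (0 : ℝ) < q := by exact_mod_cast hq
  set E : ℝ := 36 * R * B ^ R with hE
  have h1 : ∀ τ, ∑ t : (Idx p → Fin (p ^ 2)), B ^ (cls cv R q ρ τ (fun ι => (t ι : ℕ))) ≤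
      ((p : ℝ) ^ 2) ^ (6 * p) * (1 + ((∑ ι, ws cv R q ρ τ ι : ℕ) : ℝ) / (6 * p * R) * Real.exp E) := by
    intro τ
    refine (class_inner cv hp hc hmq hB).trans ?_
    refine mul_le_mul_of_nonneg_left ?_ (by positivity)
    set W : ℕ := ∑ ι, ws cv R q ρ τ ι with hW
    have hWle : (W : ℝ) ≤ 6 * p * R := by
      have : W ≤ 6 * p * R := by
        rw [hW]
        calc ∑ ι : Idx p, ws cv R q ρ τ ι ≤ ∑ ι : Idx p, R :=
              sum_le_sum fun ι _ => ws_le cv R q ρ τ ι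
          _ = 6 * p * R := by rw [sum_const, card_univ, card_idx, smul_eq_mul]
      exact_mod_cast this
    have e1 : 6 * B ^ R * (W : ℝ) / p = E * ((W : ℝ) / (6 * p * R)) := by
      rw [hE]
      field_simp
      ring
    rw [e1]
    exact exp_convex (by positivity) (by rw [div_le_one (by positivity)]; exact hWle)
  have h2 : ((∑ τ ∈ range (p ^ 2 * p ^ 2), ∑ ι, ws cv R q ρ τ ι : ℕ) : ℝ) ≤
      6 * p * (R * ((p : ℝ) ^ 2 * ((R + 2) * ((p : ℝ) ^ 2 * p ^ 2 / q)))) := by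
    have h3 := ws_sum cv (R := R) (q := q) (ρ := ρ) hq
    calc ((∑ τ ∈ range (p ^ 2 * p ^ 2), ∑ ι, ws cv R q ρ τ ι : ℕ) : ℝ)
        ≤ ((6 * p * (R * (p ^ 2 * (p ^ 2 * p ^ 2 / q + 1))) : ℕ) : ℝ) := by exact_mod_cast h3
      _ ≤ 6 * p * (R * ((p : ℝ) ^ 2 * ((p : ℝ) ^ 2 * p ^ 2 / q + 1))) := by
          push_cast
          gcongr
          calc ((p ^ 2 * p ^ 2 / q : ℕ) : ℝ) ≤ ((p ^ 2 * p ^ 2 : ℕ) : ℝ) / q := Nat.cast_div_le
            _ = (p : ℝ) ^ 2 * p ^ 2 / q := by push_cast; ring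
      _ ≤ _ := by
          gcongr
          have h4 : (q : ℝ) ≤ (R + 1) * ((p : ℝ) ^ 2 * p ^ 2) := by exact_mod_cast hqM
          have h5 : 1 ≤ (R + 1) * ((p : ℝ) ^ 2 * p ^ 2 / q) := by
            rw [← mul_div_assoc, one_le_div hq']
            exact h4
          linarith
  calc ∑ τ ∈ range (p ^ 2 * p ^ 2), ∑ t : (Idx p → Fin (p ^ 2)),
      B ^ (cls cv R q ρ τ (fun ι => (t ι : ℕ)))
      ≤ ∑ τ ∈ range (p ^ 2 * p ^ 2), ((p : ℝ) ^ 2) ^ (6 * p) *
        (1 + ((∑ ι, ws cv R q ρ τ ι : ℕ) : ℝ) / (6 * p * R) * Real.exp E) :=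
        sum_le_sum fun τ _ => h1 τ
    _ = ((p : ℝ) ^ 2) ^ (6 * p) * ((p : ℝ) ^ 2 * p ^ 2 +
        ((∑ τ ∈ range (p ^ 2 * p ^ 2), ∑ ι, ws cv R q ρ τ ι : ℕ) : ℝ) / (6 * p * R) *
          Real.exp E) := by
        rw [← mul_sum, sum_add_distrib, ← sum_mul, ← sum_div]
        congr 2
        · simp
        · push_cast
          rfl
    _ ≤ ((p : ℝ) ^ 2) ^ (6 * p) * ((p : ℝ) ^ 2 * p ^ 2 +
        (6 * p * (R * ((p : ℝ) ^ 2 * ((R + 2) * ((p : ℝ) ^ 2 * p ^ 2 / q))))) / (6 * p * R) *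
          Real.exp E) := by
        gcongr
    _ = _ := by
        field_simp

end Pool.Agent.R447.SB
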