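import Pool.Agent.R447.SB.Hit

/-!
Tail bound for the number of representations between a fixed set and the random set of one scale.
-/

namespace Pool.Agent.R447.SB

open Finset

variable {p : ℕ} (cv : Curve p)

lemma card_idx (p : ℕ) : Fintype.card (Idx p) = 6 * p := by
  simp [Idx]

/-- the total number of hits of type `(s, c)` -/
noncomputable def tot (S : Finset ℕ) (τ n s : ℕ) (c : Fin 3 × Bool) (t : Idx p → ℕ) : ℕ :=
  ∑ ι : Idx p, hits cv S (τ + cv.w ι + s * (p ^ 2 * p ^ 2)) n c (t ι)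

lemma tot_moment (hp : 0 < p) (S : Finset ℕ) (μ : ℕ)
    (hS : ∀ ρ, (S.filter (fun a => a ≡ ρ [MOD p ^ 2])).card ≤ μ) (τ n s : ℕ) (c : Fin 3 × Bool)
    {B : ℝ} (hB : 1 ≤ B) :
    ∑ t : (Idx p → Fin (p ^ 2)), B ^ (tot cv S τ n s c (fun ι => (t ι : ℕ))) ≤
      ((p ^ 2 : ℝ) + B * (μ * p) + B ^ μ * (4 * μ ^ 2)) ^ (6 * p) := by
  classical
  have h1 : ∀ t : (Idx p → Fin (p ^ 2)), B ^ (tot cv S τ n s c (fun ι => (t ι : ℕ))) =
      ∏ ι : Idx p, B ^ (hits cv S (τ + cv.w ι + s * (p ^ 2 * p ^ 2)) n c (t ι)) := by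
    intro t
    unfold tot
    rw [prod_pow_eq_pow_sum]
  simp_rw [h1]
  rw [sum_pi (fun _ : Idx p => Fin (p ^ 2))
    (fun ι y => B ^ (hits cv S (τ + cv.w ι + s * (p ^ 2 * p ^ 2)) n c (y : ℕ)))]
  have h2 : ∀ ι : Idx p, ∑ y : Fin (p ^ 2),
      B ^ (hits cv S (τ + cv.w ι + s * (p ^ 2 * p ^ 2)) n c (y : ℕ)) ≤
      ((p ^ 2 : ℝ) + B * (μ * p) + B ^ μ * (4 * μ ^ 2)) := by
    intro ι
    rw [Fin.sum_univ_eq_sum_range (fun u => B ^ (hits cv S (τ + cv.w ι + s * (p ^ 2 * p ^ 2)) n c u))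
      (p ^ 2)]
    exact hits_moment cv hp S μ hS _ n c hB
  calc _ ≤ ∏ ι : Idx p, ((p ^ 2 : ℝ) + B * (μ * p) + B ^ μ * (4 * μ ^ 2)) := by
        refine prod_le_prod (fun ι _ => ?_) (fun ι _ => h2 ι)
        exact sum_nonneg fun _ _ => by positivity
    _ = _ := by rw [prod_const, card_univ, card_idx]

/-- a bad choice of translations for the cross representations -/
def BadCross (S : Finset ℕ) (R N0 K τ : ℕ) (t : Idx p → ℕ) : Prop :=
  ∃ n < N0, ∃ s ∈ Ico 1 R, ∃ c, K ≤ tot cv S τ n s c t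

open Classical in
lemma cross_count (hp : 0 < p) (S : Finset ℕ) (μ : ℕ)
    (hS : ∀ ρ, (S.filter (fun a => a ≡ ρ [MOD p ^ 2])).card ≤ μ) (R N0 K τ : ℕ)
    {B : ℝ} (hB : 1 ≤ B) :
    ((univ.filter (fun t : (Idx p → Fin (p ^ 2)) =>
      BadCross cv S R N0 K τ (fun ι => (t ι : ℕ)))).card : ℝ) * B ^ K ≤
      N0 * (R * 6) * ((p ^ 2 : ℝ) + B * (μ * p) + B ^ μ * (4 * μ ^ 2)) ^ (6 * p) := by
  set Q := ((p ^ 2 : ℝ) + B * (μ * p) + B ^ μ * (4 * μ ^ 2)) ^ (6 * p) with hQ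
  have hQ0 : 0 ≤ Q := by positivity
  set T : Finset (ℕ × (ℕ × (Fin 3 × Bool))) := range N0 ×ˢ (Ico 1 R ×ˢ univ) with hT
  set F : (ℕ × (ℕ × (Fin 3 × Bool))) → Finset (Idx p → Fin (p ^ 2)) := fun q =>
    univ.filter (fun t : (Idx p → Fin (p ^ 2)) =>
      K ≤ tot cv S τ q.1 q.2.1 q.2.2 (fun ι => (t ι : ℕ))) with hF
  have hsub : univ.filter (fun t : (Idx p → Fin (p ^ 2)) =>
      BadCross cv S R N0 K τ (fun ι => (t ι : ℕ))) ⊆ T.biUnion F := by
    intro t ht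
    obtain ⟨n, hn, s, hs, c, hK⟩ := (mem_filter.1 ht).2
    rw [mem_biUnion]
    refine ⟨(n, (s, c)), ?_, ?_⟩
    · rw [hT, mem_product, mem_product]
      exact ⟨mem_range.2 hn, hs, mem_univ _⟩
    · rw [hF]
      simp only [mem_filter, mem_univ, true_and]
      exact hK
  have hB0 : (0 : ℝ) < B ^ K := by positivity
  have hFc : ∀ q, ((F q).card : ℝ) * B ^ K ≤ Q := by
    intro q
    calc ((F q).card : ℝ) * B ^ K = ∑ t ∈ F q, B ^ K := by rw [sum_const, nsmul_eq_mul]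
      _ ≤ ∑ t ∈ F q, B ^ (tot cv S τ q.1 q.2.1 q.2.2 (fun ι => (t ι : ℕ))) := by
          refine sum_le_sum fun t ht => ?_
          rw [hF] at ht
          simp only [mem_filter, mem_univ, true_and] at ht
          exact pow_le_pow_right₀ hB ht
      _ ≤ ∑ t : (Idx p → Fin (p ^ 2)), B ^ (tot cv S τ q.1 q.2.1 q.2.2 (fun ι => (t ι : ℕ))) := by
          refine sum_le_sum_of_subset_of_nonneg (subset_univ _) fun _ _ _ => by positivity
      _ ≤ Q := tot_moment cv hp S μ hS τ q.1 q.2.1 q.2.2 hB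
  have hTc : (T.card : ℝ) ≤ N0 * (R * 6) := by
    rw [hT, card_product, card_product]
    have : (univ : Finset (Fin 3 × Bool)).card = 6 := by simp
    rw [this]
    simp only [card_range, Nat.card_Ico]
    push_cast
    gcongr
    exact_mod_cast Nat.sub_le _ _
  calc ((univ.filter (fun t : (Idx p → Fin (p ^ 2)) =>
      BadCross cv S R N0 K τ (fun ι => (t ι : ℕ)))).card : ℝ) * B ^ K
      ≤ (∑ q ∈ T, ((F q).card : ℝ)) * B ^ K := by
        refine mul_le_mul_of_nonneg_right ?_ hB0.le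
        exact_mod_cast (card_le_card hsub).trans card_biUnion_le
    _ = ∑ q ∈ T, ((F q).card : ℝ) * B ^ K := by rw [sum_mul]
    _ ≤ ∑ q ∈ T, Q := sum_le_sum fun q _ => hFc q
    _ = T.card * Q := by rw [sum_const, nsmul_eq_mul]
    _ ≤ N0 * (R * 6) * Q := mul_le_mul_of_nonneg_right hTc hQ0

/-- the same bound, as a proportion -/
lemma cross_prob (hp : 0 < p) (S : Finset ℕ) (μ : ℕ)
    (hS : ∀ ρ, (S.filter (fun a => a ≡ ρ [MOD p ^ 2])).card ≤ μ) (R N0 K τ : ℕ)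
    {B : ℝ} (hB : 1 ≤ B) (hBμ : B ^ μ * (4 * μ ^ 2) ≤ p) :
    open Classical in
    ((univ.filter (fun t : (Idx p → Fin (p ^ 2)) =>
      BadCross cv S R N0 K τ (fun ι => (t ι : ℕ)))).card : ℝ) ≤
      (N0 * (R * 6) * Real.exp (6 * (B * μ + 1)) / B ^ K) *
        Fintype.card (Idx p → Fin (p ^ 2)) := by
  classical
  have h := cross_count cv hp S μ hS R N0 K τ hB
  have hp' : (0 : ℝ) < p := by exact_mod_cast hp
  have hB0 : (0 : ℝ) < B ^ K := by positivity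
  have hcard : (Fintype.card (Idx p → Fin (p ^ 2)) : ℝ) = ((p : ℝ) ^ 2) ^ (6 * p) := by
    rw [Fintype.card_fun, card_idx, Fintype.card_fin]
    push_cast
    ring
  have hbound : ((p ^ 2 : ℝ) + B * (μ * p) + B ^ μ * (4 * μ ^ 2)) ^ (6 * p) ≤
      ((p : ℝ) ^ 2) ^ (6 * p) * Real.exp (6 * (B * μ + 1)) := by
    have h1 : ((p ^ 2 : ℝ) + B * (μ * p) + B ^ μ * (4 * μ ^ 2)) ≤
        (p : ℝ) ^ 2 * Real.exp ((B * μ + 1) / p) := by
      have h2 : (B * μ + 1) / p + 1 ≤ Real.exp ((B * μ + 1) / p) := Real.add_one_le_exp _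
      calc ((p ^ 2 : ℝ) + B * (μ * p) + B ^ μ * (4 * μ ^ 2))
          ≤ (p : ℝ) ^ 2 + B * (μ * p) + p := by linarith
        _ = (p : ℝ) ^ 2 * ((B * μ + 1) / p + 1) := by field_simp; ring
        _ ≤ _ := mul_le_mul_of_nonneg_left h2 (by positivity)
    calc ((p ^ 2 : ℝ) + B * (μ * p) + B ^ μ * (4 * μ ^ 2)) ^ (6 * p)
        ≤ ((p : ℝ) ^ 2 * Real.exp ((B * μ + 1) / p)) ^ (6 * p) :=
          pow_le_pow_left₀ (by positivity) h1 _
      _ = ((p : ℝ) ^ 2) ^ (6 * p) * Real.exp (6 * (B * μ + 1)) := by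
          rw [mul_pow, ← Real.exp_nat_mul]
          congr 2
          push_cast
          field_simp
  rw [hcard]
  rw [div_mul_eq_mul_div, le_div_iff₀ hB0]
  refine h.trans ?_
  calc (N0 : ℝ) * (R * 6) * ((p ^ 2 : ℝ) + B * (μ * p) + B ^ μ * (4 * μ ^ 2)) ^ (6 * p)
      ≤ (N0 : ℝ) * (R * 6) * (((p : ℝ) ^ 2) ^ (6 * p) * Real.exp (6 * (B * μ + 1))) :=
        mul_le_mul_of_nonneg_left hbound (by positivity)
    _ = _ := by ring

/-- if the choice is not bad then there are few cross representations -/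
lemma cross_good (S : Finset ℕ) (R N0 K τ : ℕ) (t : Idx p → ℕ)
    (hgood : ¬ BadCross cv S R N0 K τ t) (n : ℕ) (hn : n < N0) :
    (S.filter (fun a => ∃ b ∈ scaleSet cv R τ t, a + b = n)).card ≤ 6 * R * K := by
  classical
  unfold BadCross at hgood
  push Not at hgood
  set T : Finset (ℕ × ((Fin 3 × Bool) × Idx p)) := Ico 1 R ×ˢ (univ ×ˢ univ) with hT
  set F : (ℕ × ((Fin 3 × Bool) × Idx p)) → Finset ℕ := fun q =>
    S.filter (fun a => ∃ x : Fin p, a + ((τ + cv.w q.2.2 + q.1 * (p ^ 2 * p ^ 2)) +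
      p ^ 2 * ((cv.v q.2.1 x + t q.2.2) % p ^ 2)) = n) with hF
  have hsub : S.filter (fun a => ∃ b ∈ scaleSet cv R τ t, a + b = n) ⊆ T.biUnion F := by
    intro a ha
    rw [mem_filter] at ha
    obtain ⟨haS, b, hb, hab⟩ := ha
    obtain ⟨s, ι, κ, h1, h2, rfl⟩ := (mem_scaleSet cv).1 hb
    rw [mem_biUnion]
    refine ⟨(s, (κ.1, ι)), ?_, ?_⟩
    · rw [hT, mem_product, mem_product, mem_Ico]
      exact ⟨⟨h1, h2⟩, mem_univ _, mem_univ _⟩
    · rw [hF]
      simp only [mem_filter]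
      refine ⟨haS, κ.2, ?_⟩
      rw [← hab]
      unfold el Curve.w
      ring
  refine (card_le_card hsub).trans (card_biUnion_le.trans ?_)
  rw [hT, sum_product]
  calc ∑ s ∈ Ico 1 R, ∑ y ∈ (univ ×ˢ univ : Finset ((Fin 3 × Bool) × Idx p)), (F (s, y)).card
      ≤ ∑ s ∈ Ico 1 R, 6 * K := by
        refine sum_le_sum fun s hs => ?_
        rw [sum_product]
        calc ∑ c : Fin 3 × Bool, ∑ ι : Idx p, (F (s, (c, ι))).card
            ≤ ∑ c : Fin 3 × Bool, K := by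
              refine sum_le_sum fun c _ => ?_
              have h1 : ∑ ι : Idx p, (F (s, (c, ι))).card = tot cv S τ n s c t := by
                unfold tot hits
                refine sum_congr rfl fun ι _ => ?_
                rw [hF]
              rw [h1]
              exact (hgood n hn s hs c).le
          _ = 6 * K := by simp
    _ ≤ 6 * R * K := by
        rw [sum_const, Nat.card_Ico, smul_eq_mul]
        calc (R - 1) * (6 * K) ≤ R * (6 * K) := Nat.mul_le_mul_right _ (Nat.sub_le _ _)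
          _ = 6 * R * K := by ring

end Pool.Agent.R447.SB
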