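import Mathlib

/-!
Additive bases of `ℤ/p²` of order two which are unions of six curves, with bounded representation
function and small intersections of translates.
-/

namespace Pool.Agent.R447.SB

open Finset

/-- A union of six curves with `p` points each, in the integers modulo `p²`. -/
structure Curve (p : ℕ) where
  v : Fin 3 × Bool → Fin p → ℕ
  lt : ∀ c x, v c x < p ^ 2
  cover : ∀ n : ℕ, ∃ c x c' x', v c x + v c' x' ≡ n [MOD p ^ 2]
  pairs : ∀ n : ℕ, ((univ : Finset (((Fin 3 × Bool) × Fin p) × ((Fin 3 × Bool) × Fin p))).filter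
    (fun q => v q.1.1 q.1.2 + v q.2.1 q.2.2 ≡ n [MOD p ^ 2])).card ≤ 144
  diff : ∀ c, ∀ z z' : ℕ, ¬ z ≡ z' [MOD p ^ 2] →
    ((univ : Finset (Fin p × Fin p)).filter
      (fun q => v c q.1 + z' ≡ v c q.2 + z [MOD p ^ 2])).card ≤ 4

section
variable {p : ℕ} [hpf : Fact p.Prime]

lemma two_ne (hp : 17 ≤ p) : (2 : ZMod p) ≠ 0 := by
  intro h
  have h2 : ((2 : ℕ) : ZMod p) = 0 := by exact_mod_cast h
  rw [ZMod.natCast_eq_zero_iff] at h2
  have := Nat.le_of_dvd (by norm_num) h2
  omega

lemma ringChar_ne (hp : 17 ≤ p) : ringChar (ZMod p) ≠ 2 := by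
  rw [ZMod.ringChar_zmod_n]
  omega

/-- a nonsquare which avoids three values -/
lemma exists_nonsq (hp : 17 ≤ p) (b : Fin 3 → ZMod p) :
    ∃ g : ZMod p, ¬ IsSquare g ∧ ∀ i, g ≠ b i := by
  obtain ⟨g0, hg0⟩ := FiniteField.exists_nonsquare (F := ZMod p) (ringChar_ne hp)
  have hg00 : g0 ≠ 0 := by
    rintro rfl
    exact hg0 (IsSquare.zero)
  set S : Finset (ZMod p) := (Finset.Icc 1 4).image (fun t : ℕ => (t : ZMod p) ^ 2 * g0) with hS
  have hScard : S.card = 4 := by
    rw [hS, Finset.card_image_of_injOn]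
    · simp
    · intro t ht t' ht' h
      simp only [coe_Icc, Set.mem_Icc] at ht ht'
      have h1 : (t : ZMod p) ^ 2 = (t' : ZMod p) ^ 2 := mul_right_cancel₀ hg00 h
      have h2 : ((t ^ 2 : ℕ) : ZMod p) = ((t' ^ 2 : ℕ) : ZMod p) := by push_cast; exact h1
      rw [ZMod.natCast_eq_natCast_iff'] at h2
      have h3 : t ^ 2 ≤ 4 ^ 2 := Nat.pow_le_pow_left ht.2 2
      have h4 : t' ^ 2 ≤ 4 ^ 2 := Nat.pow_le_pow_left ht'.2 2
      rw [Nat.mod_eq_of_lt (by omega), Nat.mod_eq_of_lt (by omega)] at h2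
      exact Nat.pow_left_injective (n := 2) (by norm_num) h2
  set B : Finset (ZMod p) := (univ : Finset (Fin 3)).image b with hB
  have hBcard : B.card ≤ 3 := by
    rw [hB]
    exact card_image_le.trans (by simp)
  obtain ⟨g, hgS, hgB⟩ := Finset.exists_mem_notMem_of_card_lt_card (s := B) (t := S) (by omega)
  refine ⟨g, ?_, ?_⟩
  · rw [hS, mem_image] at hgS
    obtain ⟨t, ht, rfl⟩ := hgS
    rw [mem_Icc] at ht
    have ht0 : (t : ZMod p) ≠ 0 := by
      intro h
      rw [ZMod.natCast_eq_zero_iff] at h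
      have := Nat.le_of_dvd (by omega) h
      omega
    rintro ⟨r, hr⟩
    apply hg0
    refine ⟨r / t, ?_⟩
    field_simp
    linear_combination hr
  · intro i hi
    apply hgB
    rw [hB, mem_image]
    exact ⟨i, mem_univ _, hi.symm⟩

/-- coefficients of the curves -/
lemma exists_coeff (hp : 17 ≤ p) : ∃ K : Fin 3 → ZMod p, (∀ i j, K i + K j ≠ 0) ∧
    ∀ u w : ZMod p, ∃ i j x y, x + y = u ∧ K i * x ^ 2 + K j * y ^ 2 = w := by
  have h2 := two_ne (p := p) hp
  have h3 : (3 : ZMod p) ≠ 0 := by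
    intro h
    have h2 : ((3 : ℕ) : ZMod p) = 0 := by exact_mod_cast h
    rw [ZMod.natCast_eq_zero_iff] at h2
    have := Nat.le_of_dvd (by norm_num) h2
    omega
  have h4 : (4 : ZMod p) ≠ 0 := by
    have : (4 : ZMod p) = 2 * 2 := by norm_num
    rw [this]
    exact mul_ne_zero h2 h2
  obtain ⟨g, hg, hgb⟩ := exists_nonsq (p := p) hp ![-1, -3, -(1 / 3)]
  have hg1 : g ≠ -1 := hgb 0
  have hg2 : g ≠ -3 := hgb 1
  have hg3 : g ≠ -(1 / 3) := hgb 2
  have hg0 : g ≠ 0 := by
    rintro rfl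
    exact hg (IsSquare.zero)
  have hg1' : 1 + g ≠ 0 := by
    intro h
    exact hg1 (by linear_combination h)
  have hg2' : 3 + g ≠ 0 := by
    intro h
    exact hg2 (by linear_combination h)
  have hg3' : 3 * g + 1 ≠ 0 := by
    intro h
    apply hg3
    field_simp
    linear_combination h
  refine ⟨![2, 1 + g, 1 + g⁻¹], ?_, ?_⟩
  · have e1 : (2 : ZMod p) + 2 ≠ 0 := by
      have : (2 : ZMod p) + 2 = 4 := by norm_num
      rw [this]; exact h4
    have e2 : 2 + (1 + g) ≠ 0 := by
      have : 2 + (1 + g) = 3 + g := by ring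
      rw [this]; exact hg2'
    have e3 : 2 + (1 + g⁻¹) ≠ 0 := by
      have : 2 + (1 + g⁻¹) = (3 * g + 1) / g := by field_simp; ring
      rw [this]; exact div_ne_zero hg3' hg0
    have e4 : (1 + g) + (1 + g) ≠ 0 := by
      have : (1 + g) + (1 + g) = 2 * (1 + g) := by ring
      rw [this]; exact mul_ne_zero h2 hg1'
    have e5 : (1 + g) + (1 + g⁻¹) ≠ 0 := by
      have : (1 + g) + (1 + g⁻¹) = (1 + g) ^ 2 / g := by field_simp; ring
      rw [this]; exact div_ne_zero (pow_ne_zero _ hg1') hg0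
    have e6 : (1 + g⁻¹) + (1 + g⁻¹) ≠ 0 := by
      have : (1 + g⁻¹) + (1 + g⁻¹) = 2 * (1 + g) / g := by field_simp; ring
      rw [this]; exact div_ne_zero (mul_ne_zero h2 hg1') hg0
    intro i j
    fin_cases i <;> fin_cases j
    · exact e1
    · exact e2
    · exact e3
    · rw [add_comm]; exact e2
    · exact e4
    · exact e5
    · rw [add_comm]; exact e3
    · rw [add_comm]; exact e5
    · exact e6
  · intro u w
    by_cases hs : IsSquare (w - u ^ 2)
    · obtain ⟨y, hy⟩ := hs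
      refine ⟨0, 0, (u + y) / 2, (u - y) / 2, by field_simp; ring, ?_⟩
      show 2 * ((u + y) / 2) ^ 2 + 2 * ((u - y) / 2) ^ 2 = w
      field_simp
      linear_combination (-2 : ZMod p) * hy
    · have hs2 : IsSquare (g * (w - u ^ 2)) := by
        have hc0 : w - u ^ 2 ≠ 0 := by
          intro h
          rw [h] at hs
          exact hs IsSquare.zero
        rw [← quadraticChar_one_iff_isSquare (mul_ne_zero hg0 hc0), map_mul,
          quadraticChar_neg_one_iff_not_isSquare.2 hg,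
          quadraticChar_neg_one_iff_not_isSquare.2 hs]
        norm_num
      obtain ⟨y, hy⟩ := hs2
      refine ⟨1, 2, (u + y) / (1 + g), (g * u - y) / (1 + g), by field_simp; ring, ?_⟩
      show (1 + g) * ((u + y) / (1 + g)) ^ 2 + (1 + g⁻¹) * ((g * u - y) / (1 + g)) ^ 2 = w
      field_simp
      linear_combination (-(1 + g) ^ 2) * hy

/-- the curves -/
def vv (K : Fin 3 → ZMod p) (c : Fin 3 × Bool) (x : Fin p) : ℕ :=
  (x : ℕ) + p * (K c.1 * ((x : ℕ) : ZMod p) ^ 2 - (if c.2 then 1 else 0)).val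

lemma vv_lt (K : Fin 3 → ZMod p) (c : Fin 3 × Bool) (x : Fin p) : vv K c x < p ^ 2 := by
  unfold vv
  have h1 := x.2
  have h2 := ZMod.val_lt (K c.1 * ((x : ℕ) : ZMod p) ^ 2 - (if c.2 then 1 else 0))
  calc (x : ℕ) + p * (K c.1 * ((x : ℕ) : ZMod p) ^ 2 - (if c.2 then 1 else 0)).val
      ≤ (x : ℕ) + p * (p - 1) := by
        gcongr
        omega
    _ < p + p * (p - 1) := by omega
    _ = p ^ 2 := by
        obtain ⟨q, hq⟩ : ∃ q, p = q + 1 := ⟨p - 1, by omega⟩
        subst hq
        simp only [Nat.add_sub_cancel]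
        ring

lemma modEq_sq_iff (a b : ℕ) : a ≡ b [MOD p ^ 2] ↔
    ((a : ZMod p) = b ∧ ((a / p : ℕ) : ZMod p) = ((b / p : ℕ) : ZMod p)) := by
  have hp := hpf.out.pos
  rw [ZMod.natCast_eq_natCast_iff', ZMod.natCast_eq_natCast_iff']
  unfold Nat.ModEq
  rw [pow_two, Nat.mod_mul, Nat.mod_mul]
  constructor
  · intro h
    have h1 : a % p = b % p := by
      have := congrArg (· % p) h
      simpa [Nat.add_mul_mod_self_left] using this
    refine ⟨h1, ?_⟩
    rw [h1] at h
    exact Nat.eq_of_mul_eq_mul_left hp (Nat.add_left_cancel h)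
  · rintro ⟨h1, h2⟩
    rw [h1, h2]

lemma cast_inj {x y : Fin p} (h : ((x : ℕ) : ZMod p) = ((y : ℕ) : ZMod p)) : x = y := by
  rw [ZMod.natCast_eq_natCast_iff', Nat.mod_eq_of_lt x.2, Nat.mod_eq_of_lt y.2] at h
  exact Fin.ext h

lemma vv_cast (K : Fin 3 → ZMod p) (c : Fin 3 × Bool) (x : Fin p) :
    ((vv K c x : ℕ) : ZMod p) = ((x : ℕ) : ZMod p) := by
  unfold vv
  push_cast
  simp

lemma vv_add_div (K : Fin 3 → ZMod p) (c : Fin 3 × Bool) (x : Fin p) (z : ℕ) :
    (((vv K c x + z) / p : ℕ) : ZMod p) =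
      K c.1 * ((x : ℕ) : ZMod p) ^ 2 - (if c.2 then 1 else 0) + ((((x : ℕ) + z) / p : ℕ) : ZMod p) := by
  have hp := hpf.out.pos
  have h : (vv K c x + z) / p = ((x : ℕ) + z) / p +
      (K c.1 * ((x : ℕ) : ZMod p) ^ 2 - (if c.2 then 1 else 0)).val := by
    unfold vv
    generalize (K c.1 * ((x : ℕ) : ZMod p) ^ 2 - (if c.2 then 1 else 0)).val = α
    rw [show (x : ℕ) + p * α + z = ((x : ℕ) + z) + p * α by ring, Nat.add_mul_div_left _ _ hp]
  rw [h]
  push_cast
  rw [ZMod.natCast_zmod_val]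
  ring

lemma vv_add_vv_div (K : Fin 3 → ZMod p) (c c' : Fin 3 × Bool) (x y : Fin p) :
    (((vv K c x + vv K c' y) / p : ℕ) : ZMod p) =
      K c.1 * ((x : ℕ) : ZMod p) ^ 2 - (if c.2 then 1 else 0) +
      (K c'.1 * ((y : ℕ) : ZMod p) ^ 2 - (if c'.2 then 1 else 0)) +
      ((((x : ℕ) + y) / p : ℕ) : ZMod p) := by
  rw [vv_add_div, add_comm (x : ℕ) (vv K c' y), vv_add_div, add_comm (y : ℕ) (x : ℕ)]
  ring

lemma quad_card (a b u r : ZMod p) (hab : a + b ≠ 0) :
    ((univ : Finset (Fin p × Fin p)).filter (fun q =>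
      ((q.1 : ℕ) : ZMod p) + ((q.2 : ℕ) : ZMod p) = u ∧
      a * ((q.1 : ℕ) : ZMod p) ^ 2 + b * ((q.2 : ℕ) : ZMod p) ^ 2 = r)).card ≤ 2 := by
  by_contra hcon
  push Not at hcon
  obtain ⟨q1, q2, q3, h1, h2, h3, h12, h13, h23⟩ := Finset.two_lt_card_iff.1 hcon
  simp only [mem_filter, mem_univ, true_and] at h1 h2 h3
  have key : ∀ q q' : Fin p × Fin p,
      (((q.1 : ℕ) : ZMod p) + ((q.2 : ℕ) : ZMod p) = u ∧
      a * ((q.1 : ℕ) : ZMod p) ^ 2 + b * ((q.2 : ℕ) : ZMod p) ^ 2 = r) →
      (((q'.1 : ℕ) : ZMod p) + ((q'.2 : ℕ) : ZMod p) = u ∧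
      a * ((q'.1 : ℕ) : ZMod p) ^ 2 + b * ((q'.2 : ℕ) : ZMod p) ^ 2 = r) → q ≠ q' →
      (a + b) * (((q.1 : ℕ) : ZMod p) + ((q'.1 : ℕ) : ZMod p)) = 2 * b * u := by
    rintro ⟨x, y⟩ ⟨x', y'⟩ ⟨e1, e2⟩ ⟨e3, e4⟩ hne
    simp only at e1 e2 e3 e4 ⊢
    have hx : ((x : ℕ) : ZMod p) - ((x' : ℕ) : ZMod p) ≠ 0 := by
      intro h
      have hx1 : ((x : ℕ) : ZMod p) = ((x' : ℕ) : ZMod p) := by linear_combination h
      have hy1 : ((y : ℕ) : ZMod p) = ((y' : ℕ) : ZMod p) := by
        rw [hx1] at e1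
        linear_combination e1 - e3
      exact hne (Prod.ext (cast_inj hx1) (cast_inj hy1))
    apply mul_left_cancel₀ hx
    have ey : ((y : ℕ) : ZMod p) = u - ((x : ℕ) : ZMod p) := by linear_combination e1
    have ey' : ((y' : ℕ) : ZMod p) = u - ((x' : ℕ) : ZMod p) := by linear_combination e3
    rw [ey] at e2
    rw [ey'] at e4
    linear_combination e2 - e4
  have k1 := key q1 q2 h1 h2 h12
  have k2 := key q1 q3 h1 h3 h13
  have hxx : ((q2.1 : ℕ) : ZMod p) = ((q3.1 : ℕ) : ZMod p) := by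
    apply mul_left_cancel₀ hab
    linear_combination k1 - k2
  have hyy : ((q2.2 : ℕ) : ZMod p) = ((q3.2 : ℕ) : ZMod p) := by
    have e1 := h2.1
    have e2 := h3.1
    rw [hxx] at e1
    linear_combination e1 - e2
  exact h23 (Prod.ext (cast_inj hxx) (cast_inj hyy))

lemma carry_lt (x y : ℕ) (hx : x < p) (hy : y < p) : (x + y) / p < 2 := by
  rw [Nat.div_lt_iff_lt_mul hpf.out.pos]
  omega

theorem exists_curve (hp : 17 ≤ p) : Nonempty (Curve p) := by
  obtain ⟨K, hK1, hK2⟩ := exists_coeff (p := p) hp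
  have hp0 := hpf.out.pos
  refine ⟨⟨vv K, vv_lt K, ?_, ?_, ?_⟩⟩
  · intro n
    obtain ⟨i, j, X, Y, h1, h2⟩ := hK2 (n : ZMod p) ((n / p : ℕ) : ZMod p)
    have hcar := carry_lt (p := p) X.val Y.val (ZMod.val_lt X) (ZMod.val_lt Y)
    refine ⟨(i, decide ((X.val + Y.val) / p = 1)), ⟨X.val, ZMod.val_lt X⟩, (j, false),
      ⟨Y.val, ZMod.val_lt Y⟩, ?_⟩
    rw [modEq_sq_iff]
    constructor
    · push_cast
      rw [vv_cast, vv_cast]
      simp only [ZMod.natCast_zmod_val]
      exact h1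
    · rw [vv_add_vv_div]
      simp only [ZMod.natCast_zmod_val]
      have h3 : (((X.val + Y.val) / p : ℕ) : ZMod p) =
          (if decide ((X.val + Y.val) / p = 1) = true then 1 else 0) := by
        have h01 : (X.val + Y.val) / p = 0 ∨ (X.val + Y.val) / p = 1 := by
          generalize (X.val + Y.val) / p = k at hcar
          omega
        rcases h01 with h | h
        · simp [h]
        · simp [h]
      rw [h3]
      simp only [Bool.false_eq_true, if_false]
      linear_combination h2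
  · intro n
    set u : ZMod p := (n : ZMod p) with hu
    set w : ZMod p := ((n / p : ℕ) : ZMod p) with hw
    set T : Finset ((((Fin 3 × Bool) × (Fin 3 × Bool)) × ℕ)) := univ ×ˢ range 2 with hT
    set F : (((Fin 3 × Bool) × (Fin 3 × Bool)) × ℕ) →
        Finset (((Fin 3 × Bool) × Fin p) × ((Fin 3 × Bool) × Fin p)) := fun t =>
      ((univ : Finset (Fin p × Fin p)).filter (fun q =>
        ((q.1 : ℕ) : ZMod p) + ((q.2 : ℕ) : ZMod p) = u ∧
        K t.1.1.1 * ((q.1 : ℕ) : ZMod p) ^ 2 + K t.1.2.1 * ((q.2 : ℕ) : ZMod p) ^ 2 =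
          w + (if t.1.1.2 then 1 else 0) + (if t.1.2.2 then 1 else 0) - (t.2 : ZMod p))).image
        (fun q => ((t.1.1, q.1), (t.1.2, q.2))) with hF
    have hsub : (univ : Finset (((Fin 3 × Bool) × Fin p) × ((Fin 3 × Bool) × Fin p))).filter
        (fun q => vv K q.1.1 q.1.2 + vv K q.2.1 q.2.2 ≡ n [MOD p ^ 2]) ⊆ T.biUnion F := by
      rintro ⟨⟨c, x⟩, ⟨c', y⟩⟩ hq
      simp only [mem_filter, mem_univ, true_and] at hq
      rw [modEq_sq_iff, vv_add_vv_div] at hq
      obtain ⟨e1, e2⟩ := hq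
      rw [mem_biUnion]
      refine ⟨((c, c'), ((x : ℕ) + y) / p), ?_, ?_⟩
      · rw [hT, mem_product]
        exact ⟨mem_univ _, mem_range.2 (carry_lt _ _ x.2 y.2)⟩
      · rw [hF]
        simp only [mem_image, mem_filter, mem_univ, true_and]
        refine ⟨(x, y), ⟨?_, ?_⟩, rfl⟩
        · push_cast at e1
          rw [vv_cast, vv_cast] at e1
          exact e1
        · simp only
          linear_combination e2
    refine (card_le_card hsub).trans (card_biUnion_le.trans ?_)
    calc ∑ t ∈ T, (F t).card ≤ ∑ t ∈ T, 2 := by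
          refine sum_le_sum fun t _ => ?_
          rw [hF]
          exact card_image_le.trans (quad_card _ _ _ _ (hK1 _ _))
      _ = 144 := by
          rw [hT, sum_const, card_product, card_univ]
          simp
  · intro c z z' hzz
    have hKc : K c.1 ≠ 0 := by
      intro h
      apply hK1 c.1 c.1
      rw [h, add_zero]
    have hp2 := two_ne (p := p) hp
    set T : Finset (ℕ × ℕ) := range 2 ×ˢ range 2 with hT
    set F : ℕ × ℕ → Finset (Fin p × Fin p) := fun t =>
      (univ : Finset (Fin p × Fin p)).filter (fun q =>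
        (vv K c q.1 + z' ≡ vv K c q.2 + z [MOD p ^ 2]) ∧
        ((q.1 : ℕ) + z' % p) / p = t.1 ∧ ((q.2 : ℕ) + z % p) / p = t.2) with hF
    have hsub : (univ : Finset (Fin p × Fin p)).filter
        (fun q => vv K c q.1 + z' ≡ vv K c q.2 + z [MOD p ^ 2]) ⊆ T.biUnion F := by
      rintro ⟨x, y⟩ hq
      simp only [mem_filter, mem_univ, true_and] at hq
      rw [mem_biUnion]
      refine ⟨(((x : ℕ) + z' % p) / p, ((y : ℕ) + z % p) / p), ?_, ?_⟩
      · rw [hT, mem_product, mem_range, mem_range]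
        exact ⟨carry_lt _ _ x.2 (Nat.mod_lt _ hp0), carry_lt _ _ y.2 (Nat.mod_lt _ hp0)⟩
      · rw [hF]
        simp only [mem_filter, mem_univ, true_and, and_true]
        exact hq
    refine (card_le_card hsub).trans (card_biUnion_le.trans ?_)
    calc ∑ t ∈ T, (F t).card ≤ ∑ t ∈ T, 1 := by
          refine sum_le_sum fun t _ => ?_
          rw [card_le_one]
          have hdiv : ∀ (x : Fin p) (s : ℕ), ((x : ℕ) + s) / p = s / p + ((x : ℕ) + s % p) / p := by
            intro x s
            conv_lhs => rw [← Nat.mod_add_div s p]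
            rw [← add_assoc, Nat.add_mul_div_left _ _ hp0]
            ring
          have hX : ∀ q ∈ F t, ((q.1 : ℕ) : ZMod p) - ((q.2 : ℕ) : ZMod p) = (z : ZMod p) - z' ∧
              K c.1 * (((z : ZMod p) - z') * (((q.1 : ℕ) : ZMod p) + ((q.2 : ℕ) : ZMod p))) =
                ((z / p : ℕ) : ZMod p) + (t.2 : ZMod p) - ((z' / p : ℕ) : ZMod p) -
                  (t.1 : ZMod p) := by
            rintro ⟨x, y⟩ hq
            rw [hF] at hq
            simp only [mem_filter, mem_univ, true_and] at hq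
            obtain ⟨h1, h2, h3⟩ := hq
            rw [modEq_sq_iff, vv_add_div, vv_add_div, hdiv x z', hdiv y z, h2, h3] at h1
            obtain ⟨e1, e2⟩ := h1
            push_cast at e1 e2
            rw [vv_cast, vv_cast] at e1
            have e3 : ((x : ℕ) : ZMod p) - ((y : ℕ) : ZMod p) = (z : ZMod p) - z' := by
              linear_combination e1
            refine ⟨e3, ?_⟩
            simp only
            rw [← e3]
            linear_combination e2
          intro q hq q' hq'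
          obtain ⟨a1, a2⟩ := hX q hq
          obtain ⟨b1, b2⟩ := hX q' hq'
          by_cases hd : (z : ZMod p) - z' = 0
          · exfalso
            apply hzz
            have hzz' : (z : ZMod p) = z' := by linear_combination hd
            rw [modEq_sq_iff]
            refine ⟨hzz', ?_⟩
            rw [hd] at a1 a2
            have hq12 : q.1 = q.2 := cast_inj (by linear_combination a1)
            have ht : t.1 = t.2 := by
              rw [hF] at hq
              simp only [mem_filter, mem_univ, true_and] at hq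
              rw [← hq.2.1, ← hq.2.2, hq12, (ZMod.natCast_eq_natCast_iff' _ _ _).1 hzz']
            rw [ht] at a2
            linear_combination -a2
          · have hsum : ((q.1 : ℕ) : ZMod p) + ((q.2 : ℕ) : ZMod p) =
                ((q'.1 : ℕ) : ZMod p) + ((q'.2 : ℕ) : ZMod p) := by
              have := a2.trans b2.symm
              exact mul_left_cancel₀ hd (mul_left_cancel₀ hKc this)
            have h1 : ((q.1 : ℕ) : ZMod p) = ((q'.1 : ℕ) : ZMod p) := by
              apply mul_left_cancel₀ hp2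
              linear_combination hsum + a1 - b1
            have h2 : ((q.2 : ℕ) : ZMod p) = ((q'.2 : ℕ) : ZMod p) := by
              rw [h1] at hsum
              linear_combination hsum
            exact Prod.ext (cast_inj h1) (cast_inj h2)
      _ = 4 := by
          rw [hT, sum_const, card_product]
          simp

end

end Pool.Agent.R447.SB
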