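import Pool.Agent.R447.SB.Scale
import Pool.Agent.R447.SB.Avg

/-!
Exponential moments of the number of hits between a fixed set and the random set of one scale.
-/

namespace Pool.Agent.R447.SB

open Finset

variable {p : ℕ} (cv : Curve p)

lemma pow_le_one_add {B : ℝ} (hB : 1 ≤ B) {Y μ : ℕ} (hY : Y ≤ μ) :
    B ^ Y ≤ 1 + B * Y + B ^ μ * (Y * (Y - 1 : ℝ)) := by
  have h0 : (0 : ℝ) ≤ B ^ μ := by positivity
  rcases Nat.lt_or_ge Y 2 with h | h
  · interval_cases Y
    · simp
    · simp
  · have h1 : B ^ Y ≤ B ^ μ := pow_le_pow_right₀ hB hY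
    have h2 : (1 : ℝ) ≤ (Y * (Y - 1 : ℝ)) := by
      have : (2 : ℝ) ≤ Y := by exact_mod_cast h
      nlinarith
    have h3 : B ^ μ * 1 ≤ B ^ μ * (Y * (Y - 1 : ℝ)) := mul_le_mul_of_nonneg_left h2 h0
    have h4 : (0 : ℝ) ≤ B * Y := by positivity
    linarith

lemma shift_inj {m a u u' : ℕ} (hu : u < m) (hu' : u' < m) (h : (a + u) % m = (a + u') % m) :
    u = u' := by
  have h1 : a + u ≡ a + u' [MOD m] := h
  have h2 : u ≡ u' [MOD m] := Nat.ModEq.add_left_cancel' a h1
  unfold Nat.ModEq at h2
  rwa [Nat.mod_eq_of_lt hu, Nat.mod_eq_of_lt hu'] at h2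

/-- number of elements `a` of `S` such that `n - a` lies in one curve of one block -/
noncomputable def hits (S : Finset ℕ) (T n : ℕ) (c : Fin 3 × Bool) (u : ℕ) : ℕ :=
  open Classical in
  (S.filter (fun a => ∃ x : Fin p, a + (T + p ^ 2 * ((cv.v c x + u) % p ^ 2)) = n)).card

/-- the moment of the number of hits with one block -/
lemma hits_moment (hp : 0 < p) (S : Finset ℕ) (μ : ℕ)
    (hS : ∀ ρ, (S.filter (fun a => a ≡ ρ [MOD p ^ 2])).card ≤ μ) (T n : ℕ) (c : Fin 3 × Bool)
    {B : ℝ} (hB : 1 ≤ B) :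
    ∑ u ∈ range (p ^ 2), B ^ (hits cv S T n c u) ≤
      (p ^ 2 : ℝ) + B * (μ * p) + B ^ μ * (4 * μ ^ 2) := by
  classical
  set m := p ^ 2 with hm
  have hm0 : 0 < m := by positivity
  set hit : ℕ → ℕ → Prop := fun a u => ∃ x : Fin p, a + (T + m * ((cv.v c x + u) % m)) = n
    with hhit
  set S' := S.filter (fun a => a ≡ (n - T) [MOD m]) with hS'
  have hS'μ : S'.card ≤ μ := hS _
  have hfil : ∀ u, S.filter (fun a => hit a u) = S'.filter (fun a => hit a u) := by
    intro u
    ext a
    simp only [hS', mem_filter, and_assoc]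
    refine and_congr_right fun _ => ⟨fun h => ⟨?_, h⟩, fun h => h.2⟩
    obtain ⟨x, hx⟩ := h
    have : n - T = a + m * ((cv.v c x + u) % m) := by omega
    rw [this]
    exact (Nat.modEq_iff_dvd' (by omega)).2 (by simp)
  have hY : ∀ u, hits cv S T n c u = (S'.filter (fun a => hit a u)).card := by
    intro u
    rw [← hfil u]
    rfl
  have hYμ : ∀ u, hits cv S T n c u ≤ μ := by
    intro u
    rw [hY]
    exact (card_filter_le _ _).trans hS'μ
  -- first moment
  have hone : ∀ a (x : Fin p), ((range m).filter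
      (fun u => a + (T + m * ((cv.v c x + u) % m)) = n)).card ≤ 1 := by
    intro a x
    rw [card_le_one]
    intro u hu u' hu'
    simp only [mem_filter, mem_range] at hu hu'
    apply shift_inj hu.1 hu'.1 (a := cv.v c x)
    have : m * ((cv.v c x + u) % m) = m * ((cv.v c x + u') % m) := by omega
    exact Nat.eq_of_mul_eq_mul_left hm0 this
  have hfirst : ∀ a, ((range m).filter (fun u => hit a u)).card ≤ p := by
    intro a
    have hsub : (range m).filter (fun u => hit a u) ⊆
        (univ : Finset (Fin p)).biUnion (fun x => (range m).filter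
          (fun u => a + (T + m * ((cv.v c x + u) % m)) = n)) := by
      intro u hu
      simp only [mem_filter, hhit] at hu
      obtain ⟨hu1, x, hx⟩ := hu
      rw [mem_biUnion]
      exact ⟨x, mem_univ _, by simp only [mem_filter]; exact ⟨hu1, hx⟩⟩
    refine (card_le_card hsub).trans (card_biUnion_le.trans ?_)
    calc ∑ x : Fin p, _ ≤ ∑ x : Fin p, 1 := sum_le_sum fun x _ => hone a x
      _ = p := by simp
  -- second moment
  have hsecond : ∀ a a', a ≠ a' → ((range m).filter (fun u => hit a u ∧ hit a' u)).card ≤ 4 := by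
    intro a a' haa
    by_cases hne : ((range m).filter (fun u => hit a u ∧ hit a' u)).Nonempty
    · obtain ⟨u0, hu0⟩ := hne
      simp only [mem_filter, hhit] at hu0
      obtain ⟨hu0m, ⟨x0, hx0⟩, ⟨x0', hx0'⟩⟩ := hu0
      set z := (cv.v c x0 + u0) % m with hz
      set z' := (cv.v c x0' + u0) % m with hz'
      have hzlt : z < m := Nat.mod_lt _ hm0
      have hzlt' : z' < m := Nat.mod_lt _ hm0
      have hzz : ¬ z ≡ z' [MOD m] := by
        intro h
        unfold Nat.ModEq at h
        rw [Nat.mod_eq_of_lt hzlt, Nat.mod_eq_of_lt hzlt'] at h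
        rw [← h] at hx0'
        omega
      have hd := cv.diff c z z' hzz
      refine le_trans ?_ hd
      rw [← hm]
      -- each u gives a pair
      have hex : ∀ u ∈ (range m).filter (fun u => hit a u ∧ hit a' u), ∃ q : Fin p × Fin p,
          (cv.v c q.1 + z' ≡ cv.v c q.2 + z [MOD m]) ∧ (cv.v c q.1 + u) % m = z := by
        intro u hu
        simp only [mem_filter, hhit] at hu
        obtain ⟨_, ⟨x, hx⟩, ⟨x', hx'⟩⟩ := hu
        have e1 : (cv.v c x + u) % m = z := by
          have : m * ((cv.v c x + u) % m) = m * z := by omega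
          exact Nat.eq_of_mul_eq_mul_left hm0 this
        have e2 : (cv.v c x' + u) % m = z' := by
          have : m * ((cv.v c x' + u) % m) = m * z' := by omega
          exact Nat.eq_of_mul_eq_mul_left hm0 this
        refine ⟨(x, x'), ?_, e1⟩
        have f1 : cv.v c x + u ≡ z [MOD m] := by
          unfold Nat.ModEq
          rw [e1, Nat.mod_eq_of_lt hzlt]
        have f2 : cv.v c x' + u ≡ z' [MOD m] := by
          unfold Nat.ModEq
          rw [e2, Nat.mod_eq_of_lt hzlt']
        apply Nat.ModEq.add_right_cancel' u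
        calc cv.v c x + z' + u = (cv.v c x + u) + z' := by ring
          _ ≡ z + (cv.v c x' + u) [MOD m] := Nat.ModEq.add f1 f2.symm
          _ = cv.v c x' + z + u := by ring
      have : Nonempty (Fin p × Fin p) := ⟨(⟨0, hp⟩, ⟨0, hp⟩)⟩
      choose! f hf1 hf2 using hex
      refine card_le_card_of_injOn f ?_ ?_
      · intro u hu
        simp only [coe_filter, mem_univ, true_and, Set.mem_ofPred_eq]
        exact hf1 u hu
      · intro u hu u' hu' huu
        have e1 := hf2 u hu
        have e2 := hf2 u' hu'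
        rw [← huu, ← e1] at e2
        exact (shift_inj (by have := (mem_filter.1 hu').1; exact mem_range.1 this)
          (by have := (mem_filter.1 hu).1; exact mem_range.1 this) e2).symm
    · rw [not_nonempty_iff_eq_empty] at hne
      rw [hne]
      simp
  have hsum1 : ∑ u ∈ range m, (hits cv S T n c u : ℝ) ≤ μ * p := by
    have h1 : ∑ u ∈ range m, hits cv S T n c u = ∑ a ∈ S', ((range m).filter (fun u => hit a u)).card := by
      simp_rw [hY, card_filter]
      rw [sum_comm]
    have h2 : ∑ u ∈ range m, hits cv S T n c u ≤ μ * p := by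
      rw [h1]
      calc ∑ a ∈ S', ((range m).filter (fun u => hit a u)).card ≤ ∑ a ∈ S', p :=
            sum_le_sum fun a _ => hfirst a
        _ = S'.card * p := by rw [sum_const, smul_eq_mul]
        _ ≤ μ * p := Nat.mul_le_mul_right _ hS'μ
    exact_mod_cast h2
  have hsum2 : ∑ u ∈ range m, ((hits cv S T n c u : ℝ) * ((hits cv S T n c u : ℝ) - 1)) ≤
      4 * μ ^ 2 := by
    have h1 : ∀ u, ((hits cv S T n c u : ℝ) * ((hits cv S T n c u : ℝ) - 1)) =
        (((S'.offDiag).filter (fun q => hit q.1 u ∧ hit q.2 u)).card : ℝ) := by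
      intro u
      have h2 : (S'.offDiag).filter (fun q => hit q.1 u ∧ hit q.2 u) =
          (S'.filter (fun a => hit a u)).offDiag := by
        ext q
        simp only [mem_filter, mem_offDiag]
        tauto
      rw [h2, offDiag_card, ← hY]
      rcases Nat.eq_zero_or_pos (hits cv S T n c u) with h | h
      · rw [h]
        simp
      · rw [Nat.cast_sub (Nat.le_mul_of_pos_left _ h)]
        push_cast
        ring
    have h3 : ∑ u ∈ range m, ((S'.offDiag).filter (fun q => hit q.1 u ∧ hit q.2 u)).card ≤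
        4 * μ ^ 2 := by
      have h4 : ∑ u ∈ range m, ((S'.offDiag).filter (fun q => hit q.1 u ∧ hit q.2 u)).card =
          ∑ q ∈ S'.offDiag, ((range m).filter (fun u => hit q.1 u ∧ hit q.2 u)).card := by
        simp_rw [card_filter]
        rw [sum_comm]
      rw [h4]
      calc ∑ q ∈ S'.offDiag, ((range m).filter (fun u => hit q.1 u ∧ hit q.2 u)).card
          ≤ ∑ q ∈ S'.offDiag, 4 := by
            refine sum_le_sum fun q hq => hsecond _ _ ?_
            exact (mem_offDiag.1 hq).2.2
        _ = S'.offDiag.card * 4 := by rw [sum_const, smul_eq_mul]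
        _ ≤ μ ^ 2 * 4 := by
            refine Nat.mul_le_mul_right _ ?_
            rw [offDiag_card]
            calc S'.card * S'.card - S'.card ≤ S'.card * S'.card := Nat.sub_le _ _
              _ ≤ μ * μ := Nat.mul_le_mul hS'μ hS'μ
              _ = μ ^ 2 := by ring
        _ = 4 * μ ^ 2 := by ring
    calc ∑ u ∈ range m, ((hits cv S T n c u : ℝ) * ((hits cv S T n c u : ℝ) - 1))
        = ((∑ u ∈ range m, ((S'.offDiag).filter (fun q => hit q.1 u ∧ hit q.2 u)).card : ℕ) : ℝ) := by
          push_cast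
          exact sum_congr rfl fun u _ => h1 u
      _ ≤ ((4 * μ ^ 2 : ℕ) : ℝ) := by exact_mod_cast h3
      _ = 4 * μ ^ 2 := by push_cast; ring
  calc ∑ u ∈ range m, B ^ (hits cv S T n c u)
      ≤ ∑ u ∈ range m, (1 + B * (hits cv S T n c u) + B ^ μ * ((hits cv S T n c u : ℝ) *
        ((hits cv S T n c u : ℝ) - 1))) :=
        sum_le_sum fun u _ => pow_le_one_add hB (hYμ u)
    _ = m + B * ∑ u ∈ range m, (hits cv S T n c u : ℝ) + B ^ μ *
        ∑ u ∈ range m, ((hits cv S T n c u : ℝ) * ((hits cv S T n c u : ℝ) - 1)) := by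
        rw [sum_add_distrib, sum_add_distrib, mul_sum, mul_sum]
        simp
    _ ≤ (p ^ 2 : ℝ) + B * (μ * p) + B ^ μ * (4 * μ ^ 2) := by
        have e1 : (m : ℝ) = (p ^ 2 : ℝ) := by rw [hm]; push_cast; ring
        rw [e1]
        have e2 := mul_le_mul_of_nonneg_left hsum1 (by linarith : (0 : ℝ) ≤ B)
        have e3 := mul_le_mul_of_nonneg_left hsum2 (by positivity : (0 : ℝ) ≤ B ^ μ)
        linarith

end Pool.Agent.R447.SB
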