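import Pool.Agent.R447.SB.Basis

/-!
Choice of the parameters.
-/

namespace Pool.Agent.R447.SB

open Finset

/-- the slowly growing parameter -/
def kk (j : ℕ) : ℕ := Nat.log 2 (Nat.log 2 j) - 20

/-- bound for the classes -/
def mu (j : ℕ) : ℕ := (5 * j + 13) / (100 * 2 ^ kk j) + 1

/-- bound for the cross representations -/
def Kf (j : ℕ) : ℕ := (6 * j + 54) / kk j + 1

lemma exists_large (a : ℕ) : ∃ j0 : ℕ, ∀ j, j0 ≤ j → a ≤ Nat.log 2 (Nat.log 2 j) := by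
  refine ⟨2 ^ 2 ^ a, fun j hj => ?_⟩
  have h1 : 2 ^ a ≤ Nat.log 2 j := Nat.le_log_of_pow_le (by norm_num) hj
  exact Nat.le_log_of_pow_le (by norm_num) h1

lemma two_pow_aux (k : ℕ) : (2 ^ 2 ^ (k + 16)) ^ 16 = 2 ^ 2 ^ (k + 20) := by
  have h : 2 ^ (k + 16) * 16 = 2 ^ (k + 20) := by
    rw [show k + 20 = (k + 16) + 4 by ring, pow_add 2 (k + 16) 4]
    norm_num
  rw [← pow_mul, h]

lemma two_pow_aux2 (k : ℕ) : 16 ≤ 2 ^ 2 ^ (k + 16) := by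
  have h1 : 4 ≤ 2 ^ (k + 16) := by
    have := @Nat.lt_two_pow_self (k + 16)
    omega
  calc 16 = 2 ^ 4 := by norm_num
    _ ≤ 2 ^ 2 ^ (k + 16) := Nat.pow_le_pow_right (by norm_num) h1

lemma two_pow_aux3 (k : ℕ) : (2 ^ (100 * 2 ^ k)) ^ 641 ≤ 2 ^ 2 ^ (k + 16) := by
  rw [← pow_mul]
  apply Nat.pow_le_pow_right (by norm_num)
  rw [pow_add 2 k 16]
  have : (2 : ℕ) ^ 16 = 65536 := by norm_num
  rw [this]
  generalize 2 ^ k = z
  omega

section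
variable {j : ℕ} (hj : 21 ≤ Nat.log 2 (Nat.log 2 j))
include hj

lemma kk_pos : 1 ≤ kk j := by unfold kk; omega

lemma pow_kk_le : 2 ^ (kk j + 20) ≤ Nat.log 2 j := by
  have h : kk j + 20 = Nat.log 2 (Nat.log 2 j) := by unfold kk; omega
  rw [h]
  apply Nat.pow_log_le_self
  intro h0
  rw [h0] at hj
  simp at hj

lemma j_ne : j ≠ 0 := by
  rintro rfl
  simp at hj

lemma pow_log_le : 2 ^ Nat.log 2 j ≤ j := Nat.pow_log_le_self 2 (j_ne hj)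

lemma log_lt : Nat.log 2 j < j :=
  lt_of_lt_of_le Nat.lt_two_pow_self (pow_log_le hj)

lemma pow_kk_le' : 1048576 * 2 ^ kk j ≤ j := by
  have h1 := pow_kk_le hj
  have h2 := log_lt hj
  have h3 : 2 ^ (kk j + 20) = 1048576 * 2 ^ kk j := by rw [pow_add]; ring
  omega

lemma mu_bound : 100 * (2 ^ kk j * mu j) ≤ 5 * j + 13 + 100 * 2 ^ kk j := by
  unfold mu
  have h := Nat.mul_div_le (5 * j + 13) (100 * 2 ^ kk j)
  calc 100 * (2 ^ kk j * ((5 * j + 13) / (100 * 2 ^ kk j) + 1))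
      = (100 * 2 ^ kk j) * ((5 * j + 13) / (100 * 2 ^ kk j)) + 100 * 2 ^ kk j := by ring
    _ ≤ _ := by omega

lemma mu_nine : 9 * (2 ^ kk j * mu j) ≤ j := by
  have h1 := mu_bound hj
  have h2 := pow_kk_le' hj
  have h3 : 1 ≤ 2 ^ kk j := Nat.one_le_two_pow
  omega

lemma mu_theta : 5 * j + 13 ≤ (100 * 2 ^ kk j) * mu j := by
  unfold mu
  have hpos : 0 < 100 * 2 ^ kk j := by positivity
  exact (Nat.lt_mul_div_succ (5 * j + 13) hpos).le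

lemma K_eta : 6 * j + 54 ≤ kk j * Kf j := by
  unfold Kf
  exact (Nat.lt_mul_div_succ (6 * j + 54) (kk_pos hj)).le

lemma k_mu : (kk j + 2) * mu j ≤ j := by
  have h0 : kk j + 2 ≤ 2 * 2 ^ kk j := by
    have : ∀ k, 1 ≤ k → k + 2 ≤ 2 * 2 ^ k := by
      intro k hk
      induction k, hk using Nat.le_induction with
      | base => norm_num
      | succ k hk ih => rw [pow_succ]; omega
    exact this _ (kk_pos hj)
  have h1 := mu_bound hj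
  have h2 := pow_kk_le' hj
  have h3 : 1 ≤ 2 ^ kk j := Nat.one_le_two_pow
  calc (kk j + 2) * mu j ≤ (2 * 2 ^ kk j) * mu j := Nat.mul_le_mul_right _ h0
    _ = 2 * (2 ^ kk j * mu j) := by ring
    _ ≤ j := by omega

/-- condition (a) -/
lemma cond_G : 4 * (((641 : ℕ) : ℝ) + 2) *
    Real.exp (36 * ((641 : ℕ) : ℝ) * ((2 : ℝ) ^ (100 * 2 ^ kk j)) ^ 641) ≤ 4 ^ (Nat.sqrt j) := by
  obtain ⟨Y, hY⟩ : ∃ Y : ℕ, Y = 2 ^ 2 ^ (kk j + 16) := ⟨_, rfl⟩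
  have hY16 : Y ^ 16 ≤ j := by
    rw [hY, two_pow_aux]
    exact (Nat.pow_le_pow_right (by norm_num) (pow_kk_le hj)).trans (pow_log_le hj)
  have hY10 : 16 ≤ Y := by
    rw [hY]
    exact two_pow_aux2 _
  have hB : ((2 : ℝ) ^ (100 * 2 ^ kk j)) ^ 641 ≤ (Y : ℝ) := by
    rw [hY]
    exact_mod_cast two_pow_aux3 (kk j)
  clear hY
  have hsq : Y ^ 8 ≤ Nat.sqrt j := by
    rw [Nat.le_sqrt']
    calc (Y ^ 8) ^ 2 = Y ^ 16 := by rw [← pow_mul]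
      _ ≤ j := hY16
  have hlin : 23076 * Y + 6 ≤ Y ^ 8 := by
    have h1 : 16 ^ 7 ≤ Y ^ 7 := Nat.pow_le_pow_left hY10 7
    have h2 : 16 ^ 7 * Y ≤ Y ^ 7 * Y := Nat.mul_le_mul_right _ h1
    have h3 : Y ^ 7 * Y = Y ^ 8 := by ring
    omega
  generalize hX : ((2 : ℝ) ^ (100 * 2 ^ kk j)) ^ 641 = X at hB
  have hexp : Real.exp (36 * ((641 : ℕ) : ℝ) * X) ≤ 4 ^ (23076 * Y) := by
    calc Real.exp (36 * ((641 : ℕ) : ℝ) * X)
        ≤ Real.exp (36 * ((641 : ℕ) : ℝ) * Y) := by gcongr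
      _ = Real.exp (((23076 * Y : ℕ) : ℝ) * 1) := by
          congr 1
          push_cast
          ring
      _ = (Real.exp 1) ^ (23076 * Y) := by rw [Real.exp_nat_mul]
      _ ≤ 4 ^ (23076 * Y) := by
          have : Real.exp 1 ≤ 4 := by
            have := Real.exp_one_lt_d9
            linarith
          gcongr
  calc 4 * (((641 : ℕ) : ℝ) + 2) * Real.exp (36 * ((641 : ℕ) : ℝ) * X)
      ≤ 4 ^ 6 * 4 ^ (23076 * Y) := by
        refine mul_le_mul (by norm_num) hexp (Real.exp_pos _).le (by norm_num)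
    _ = (4 : ℝ) ^ (23076 * Y + 6) := by rw [pow_add, mul_comm]
    _ ≤ 4 ^ (Nat.sqrt j) := pow_le_pow_right₀ (by norm_num) (hlin.trans hsq)

/-- condition (b) -/
lemma cond_B : ((2 : ℝ) ^ kk j) ^ mu j * (4 * (mu j : ℝ) ^ 2) ≤ pr j := by
  have h1 : (2 ^ kk j) ^ mu j * (4 * (mu j) ^ 2) ≤ pr j := by
    have h2 : mu j ≤ 2 ^ mu j := Nat.lt_two_pow_self.le
    calc (2 ^ kk j) ^ mu j * (4 * (mu j) ^ 2) ≤ (2 ^ kk j) ^ mu j * (4 * (2 ^ mu j) ^ 2) := by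
          gcongr
      _ = 2 ^ ((kk j + 2) * mu j + 2) := by
          rw [← pow_mul, ← pow_mul, pow_add, add_mul, pow_add]
          ring
      _ ≤ 2 ^ (j + 4) := Nat.pow_le_pow_right (by norm_num) (by have := k_mu hj; omega)
      _ ≤ pr j := (pr_gt j).le
  exact_mod_cast h1

/-- first probability -/
lemma cond_1 : ((pr j ^ 2 : ℕ) : ℝ) * (2 * 4 ^ ((Nat.sqrt j) ^ 2)) /
    ((2 : ℝ) ^ (100 * 2 ^ kk j)) ^ mu j ≤ (1 / 2) ^ (j + 2) := by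
  have h1 : ((pr j ^ 2 : ℕ) : ℝ) ≤ 2 ^ (2 * j + 10) := by
    have : pr j ^ 2 ≤ 2 ^ (2 * j + 10) := by
      calc pr j ^ 2 ≤ (2 ^ (j + 5)) ^ 2 := Nat.pow_le_pow_left (pr_le j) 2
        _ = 2 ^ (2 * j + 10) := by rw [← pow_mul]; congr 1; ring
    exact_mod_cast this
  have h2 : (2 * 4 ^ ((Nat.sqrt j) ^ 2) : ℝ) ≤ 2 ^ (2 * j + 1) := by
    have h3 : (Nat.sqrt j) ^ 2 ≤ j := Nat.sqrt_le' j
    calc (2 * 4 ^ ((Nat.sqrt j) ^ 2) : ℝ) ≤ 2 * 4 ^ j := by gcongr; norm_num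
      _ = 2 ^ (2 * j + 1) := by
          rw [pow_add, pow_mul]
          norm_num
          ring
  have h3 : (2 : ℝ) ^ (5 * j + 13) ≤ ((2 : ℝ) ^ (100 * 2 ^ kk j)) ^ mu j := by
    rw [← pow_mul]
    exact pow_le_pow_right₀ (by norm_num) (mu_theta hj)
  calc ((pr j ^ 2 : ℕ) : ℝ) * (2 * 4 ^ ((Nat.sqrt j) ^ 2)) / ((2 : ℝ) ^ (100 * 2 ^ kk j)) ^ mu j
      ≤ 2 ^ (2 * j + 10) * 2 ^ (2 * j + 1) / 2 ^ (5 * j + 13) := by gcongr
    _ = (1 / 2) ^ (j + 2) := by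
        rw [one_div, inv_pow, div_eq_iff (by positivity), ← pow_add]
        rw [show 5 * j + 13 = (2 * j + 10 + (2 * j + 1)) + (j + 2) by ring, pow_add]
        field_simp
        rw [← pow_add, ← pow_add]

/-- second probability -/
lemma cond_2 : (((2 * (641 + 1) * MM j : ℕ) : ℝ) * (((641 : ℕ) : ℝ) * 6) *
    Real.exp (6 * ((2 : ℝ) ^ kk j * mu j + 1)) / ((2 : ℝ) ^ kk j) ^ Kf j) ≤ (1 / 2) ^ (j + 2) := by
  have h1 : (((2 * (641 + 1) * MM j : ℕ) : ℝ) * (((641 : ℕ) : ℝ) * 6)) ≤ 2 ^ (4 * j + 43) := by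
    have h2 : (2 * (641 + 1) * MM j) * (641 * 6) ≤ 2 ^ (4 * j + 43) := by
      calc (2 * (641 + 1) * MM j) * (641 * 6) ≤ (2 * (641 + 1) * 16 ^ (j + 5)) * (641 * 6) := by
            gcongr
            exact MM_up j
        _ = 4938264 * 16 ^ (j + 5) := by ring
        _ ≤ 2 ^ 23 * 16 ^ (j + 5) := by gcongr; norm_num
        _ = 2 ^ (4 * j + 43) := by
            rw [show (16 : ℕ) = 2 ^ 4 by norm_num, ← pow_mul, ← pow_add]
            congr 1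
            ring
    exact_mod_cast h2
  have h2 : Real.exp (6 * ((2 : ℝ) ^ kk j * mu j + 1)) ≤ 2 ^ (j + 9) := by
    have h3 : Real.exp 6 ≤ 512 := by
      have h4 : Real.exp 6 = (Real.exp 1) ^ 6 := by rw [← Real.exp_nat_mul]; norm_num
      rw [h4]
      calc (Real.exp 1) ^ 6 ≤ 2.7182818286 ^ 6 := by
            gcongr
            exact Real.exp_one_lt_d9.le
        _ ≤ 512 := by norm_num
    have h5 : 6 * ((2 : ℝ) ^ kk j * mu j + 1) = ((2 ^ kk j * mu j + 1 : ℕ) : ℝ) * 6 := by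
      push_cast
      ring
    rw [h5, Real.exp_nat_mul]
    calc (Real.exp 6) ^ (2 ^ kk j * mu j + 1) ≤ 512 ^ (2 ^ kk j * mu j + 1) := by gcongr
      _ = (2 : ℝ) ^ (9 * (2 ^ kk j * mu j) + 9) := by
          rw [show (512 : ℝ) = 2 ^ 9 by norm_num, ← pow_mul]
          congr 1
      _ ≤ 2 ^ (j + 9) := pow_le_pow_right₀ (by norm_num) (by have := mu_nine hj; omega)
  have h3 : (2 : ℝ) ^ (6 * j + 54) ≤ ((2 : ℝ) ^ kk j) ^ Kf j := by
    rw [← pow_mul]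
    exact pow_le_pow_right₀ (by norm_num) (K_eta hj)
  calc _ ≤ (2 : ℝ) ^ (4 * j + 43) * 2 ^ (j + 9) / 2 ^ (6 * j + 54) := by gcongr
    _ = (1 / 2) ^ (j + 2) := by
        rw [one_div, inv_pow, div_eq_iff (by positivity), ← pow_add]
        rw [show 6 * j + 54 = (4 * j + 43 + (j + 9)) + (j + 2) by ring, pow_add]
        field_simp
        rw [← pow_add, ← pow_add]

end

/-- good parameters exist -/
theorem exists_params : ∃ (j0 : ℕ) (x : ∀ i, Om i), (∀ j, j0 ≤ j → 21 ≤ Nat.log 2 (Nat.log 2 j)) ∧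
    ∀ j, j0 ≤ j → ¬ BadCross (cvs j) (SS 641 j0 j x) 641 (2 * (641 + 1) * MM j) (Kf j) (x j).1
      (fun ι => ((x j).2 ι : ℕ)) := by
  obtain ⟨j0, hj0⟩ := exists_large 21
  obtain ⟨x, hx⟩ := exists_good 641 j0 (by norm_num) mu Kf (fun j => Nat.sqrt j)
    (fun j => 2 * (641 + 1) * MM j) (fun j => (2 : ℝ) ^ (100 * 2 ^ kk j)) (fun j => (2 : ℝ) ^ kk j)
    (fun j => one_le_pow₀ (by norm_num)) (fun j => one_le_pow₀ (by norm_num))
    (fun j hj => cond_G (hj0 j hj)) (fun j hj => cond_B (hj0 j hj))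
    (fun j hj => cond_1 (hj0 j hj)) (fun j hj => cond_2 (hj0 j hj))
  exact ⟨j0, x, hj0, fun j hj => (hx j hj).2⟩

end Pool.Agent.R447.SB
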