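import Pool.Agent.R447.SB.Curve

/-!
The set attached to one scale: location, covering, and representations inside one scale.
-/

namespace Pool.Agent.R447.SB

open Finset

/-- index of a point of a curve -/
abbrev Idx (p : ℕ) : Type := (Fin 3 × Bool) × Fin p

variable {p : ℕ} (cv : Curve p)

/-- a point of the curve basis -/
def Curve.w (ι : Idx p) : ℕ := cv.v ι.1 ι.2

lemma Curve.w_lt (ι : Idx p) : cv.w ι < p ^ 2 := cv.lt _ _

/-- an element of the set of one scale -/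
def el (τ : ℕ) (t : Idx p → ℕ) (s : ℕ) (ι κ : Idx p) : ℕ :=
  τ + cv.w ι + p ^ 2 * ((cv.w κ + t ι) % p ^ 2) + s * (p ^ 2 * p ^ 2)

/-- the set of one scale -/
def scaleSet (R τ : ℕ) (t : Idx p → ℕ) : Finset ℕ :=
  ((Ico 1 R) ×ˢ ((univ : Finset (Idx p)) ×ˢ (univ : Finset (Idx p)))).image
    (fun q => el cv τ t q.1 q.2.1 q.2.2)

lemma mem_scaleSet {R τ : ℕ} {t : Idx p → ℕ} {a : ℕ} :
    a ∈ scaleSet cv R τ t ↔ ∃ s ι κ, 1 ≤ s ∧ s < R ∧ el cv τ t s ι κ = a := by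
  unfold scaleSet
  rw [mem_image]
  constructor
  · rintro ⟨q, hq, h⟩
    rw [mem_product, mem_Ico] at hq
    exact ⟨q.1, q.2.1, q.2.2, hq.1.1, hq.1.2, h⟩
  · rintro ⟨s, ι, κ, h1, h2, h⟩
    refine ⟨(s, (ι, κ)), ?_, h⟩
    rw [mem_product, mem_Ico]
    exact ⟨⟨h1, h2⟩, mem_product.2 ⟨mem_univ _, mem_univ _⟩⟩

lemma scale_lower {R τ : ℕ} {t : Idx p → ℕ} {a : ℕ} (ha : a ∈ scaleSet cv R τ t) :
    p ^ 2 * p ^ 2 ≤ a := by
  obtain ⟨s, ι, κ, h1, h2, rfl⟩ := (mem_scaleSet cv).1 ha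
  unfold el
  have h3 : 1 * (p ^ 2 * p ^ 2) ≤ s * (p ^ 2 * p ^ 2) := Nat.mul_le_mul_right _ h1
  omega

lemma scale_upper {R τ : ℕ} (hτ : τ < p ^ 2 * p ^ 2) {t : Idx p → ℕ} {a : ℕ}
    (ha : a ∈ scaleSet cv R τ t) : a < (R + 1) * (p ^ 2 * p ^ 2) := by
  obtain ⟨s, ι, κ, h1, h2, rfl⟩ := (mem_scaleSet cv).1 ha
  unfold el
  set m := p ^ 2 with hm
  have hw : cv.w ι < m := cv.w_lt ι
  have hm0 : 0 < m := by omega
  have hz : (cv.w κ + t ι) % m < m := Nat.mod_lt _ hm0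
  obtain ⟨R', rfl⟩ : ∃ R', R = R' + 1 := ⟨R - 1, by omega⟩
  have h3 : s * (m * m) ≤ R' * (m * m) := Nat.mul_le_mul_right _ (by omega)
  have h4 : m * ((cv.w κ + t ι) % m) + m ≤ m * m := by
    calc m * ((cv.w κ + t ι) % m) + m = m * ((cv.w κ + t ι) % m + 1) := by ring
      _ ≤ m * m := Nat.mul_le_mul_left _ hz
  have h5 : (R' + 1 + 1) * (m * m) = R' * (m * m) + m * m + m * m := by ring
  rw [h5]
  omega

/-- covering -/
lemma scale_cover {R τ : ℕ} (hτ : τ ≤ p ^ 2 * p ^ 2) (hp : 0 < p) (t : Idx p → ℕ) {n : ℕ}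
    (h1 : 5 * (p ^ 2 * p ^ 2) ≤ n) (h2 : n < (2 * R - 1) * (p ^ 2 * p ^ 2)) :
    ∃ a ∈ scaleSet cv R τ t, ∃ b ∈ scaleSet cv R τ t, a + b = n := by
  set m := p ^ 2 with hm
  have hm0 : 0 < m := by positivity
  obtain ⟨n', hn'⟩ : ∃ n', n = n' + 2 * τ := ⟨n - 2 * τ, by omega⟩
  obtain ⟨c, x, c', x', hcov⟩ := cv.cover n'
  set ι : Idx p := (c, x) with hι
  set ι' : Idx p := (c', x') with hι'
  have hw : cv.w ι < m := cv.w_lt ι
  have hw' : cv.w ι' < m := cv.w_lt ι'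
  have hcov' : cv.w ι + cv.w ι' ≡ n' [MOD m] := hcov
  have hmm : m ≤ m * m := Nat.le_mul_of_pos_left m hm0
  have hn'3 : 3 * (m * m) ≤ n' := by omega
  have hle : cv.w ι + cv.w ι' ≤ n' := by omega
  obtain ⟨w, hw1⟩ : m ∣ n' - (cv.w ι + cv.w ι') := (Nat.modEq_iff_dvd' hle).1 hcov'
  have hw2 : n' = cv.w ι + cv.w ι' + m * w := by omega
  obtain ⟨d, y, d', y', hcov2⟩ := cv.cover (w + (m - 1) * (t ι + t ι'))
  set κ : Idx p := (d, y) with hκ
  set κ' : Idx p := (d', y') with hκ'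
  have hcov2' : cv.w κ + cv.w κ' ≡ w + (m - 1) * (t ι + t ι') [MOD m] := hcov2
  set z := (cv.w κ + t ι) % m with hz
  set z' := (cv.w κ' + t ι') % m with hz'
  have hzlt : z < m := Nat.mod_lt _ hm0
  have hzlt' : z' < m := Nat.mod_lt _ hm0
  have hzz : z + z' ≡ w [MOD m] := by
    have e1 : z + z' ≡ (cv.w κ + t ι) + (cv.w κ' + t ι') [MOD m] :=
      Nat.ModEq.add (Nat.mod_modEq _ _) (Nat.mod_modEq _ _)
    have e2 : (cv.w κ + t ι) + (cv.w κ' + t ι') ≡
        w + (m - 1) * (t ι + t ι') + (t ι + t ι') [MOD m] := by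
      have := Nat.ModEq.add_right (t ι + t ι') hcov2'
      calc (cv.w κ + t ι) + (cv.w κ' + t ι') = cv.w κ + cv.w κ' + (t ι + t ι') := by ring
        _ ≡ _ [MOD m] := this
    have e3 : w + (m - 1) * (t ι + t ι') + (t ι + t ι') = w + m * (t ι + t ι') := by
      obtain ⟨m', hm'⟩ : ∃ m', m = m' + 1 := ⟨m - 1, by omega⟩
      rw [hm', Nat.add_sub_cancel]
      ring
    rw [e3] at e2
    refine e1.trans (e2.trans ?_)
    exact (Nat.modEq_iff_dvd' (by omega)).2 (by simp) |>.symm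
  have hmw : 3 * (m * m) ≤ cv.w ι + cv.w ι' + m * w := by omega
  have hwlow : 3 * m ≤ w + 1 := by
    by_contra hcon
    push Not at hcon
    have : m * (w + 2) ≤ m * (3 * m) := Nat.mul_le_mul_left _ (by omega)
    have e1 : m * (w + 2) = m * w + 2 * m := by ring
    have e2 : m * (3 * m) = 3 * (m * m) := by ring
    omega
  have hzle : z + z' ≤ w := by omega
  obtain ⟨S, hS⟩ : m ∣ w - (z + z') := (Nat.modEq_iff_dvd' hzle).1 hzz
  have hS' : w = z + z' + m * S := by omega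
  have hS2 : 2 ≤ S := by
    by_contra hcon
    push Not at hcon
    have : m * S ≤ m * 1 := Nat.mul_le_mul_left _ (by omega)
    omega
  have hSR : S ≤ 2 * R - 2 := by
    by_contra hcon
    push Not at hcon
    have h3 : (2 * R - 1) * (m * m) ≤ S * (m * m) := Nat.mul_le_mul_right _ (by omega)
    have h4 : S * (m * m) = m * (m * S) := by ring
    have h5 : m * (m * S) ≤ m * w := Nat.mul_le_mul_left _ (by omega)
    omega
  obtain ⟨s, s', hs1, hs2, hs3, hs4, hss⟩ : ∃ s s', 1 ≤ s ∧ s < R ∧ 1 ≤ s' ∧ s' < R ∧ s + s' = S := by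
    by_cases h : S ≤ R
    · exact ⟨1, S - 1, by omega, by omega, by omega, by omega, by omega⟩
    · exact ⟨R - 1, S - (R - 1), by omega, by omega, by omega, by omega, by omega⟩
  refine ⟨el cv τ t s ι κ, (mem_scaleSet cv).2 ⟨s, ι, κ, hs1, hs2, rfl⟩,
    el cv τ t s' ι' κ', (mem_scaleSet cv).2 ⟨s', ι', κ', hs3, hs4, rfl⟩, ?_⟩
  unfold el
  rw [← hm, ← hz, ← hz', hn', hw2, hS', ← hss]
  ring

/-- pairs of indices with given sum modulo `p²` -/
def prs (n : ℕ) : Finset (Idx p × Idx p) :=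
  (univ : Finset (Idx p × Idx p)).filter (fun q => cv.w q.1 + cv.w q.2 ≡ n [MOD p ^ 2])

lemma prs_card (n : ℕ) : (prs cv n).card ≤ 144 := cv.pairs n

/-- representations inside one scale -/
lemma scale_self (hp : 0 < p) (R τ : ℕ) (t : Idx p → ℕ) (n : ℕ) :
    ((scaleSet cv R τ t ×ˢ scaleSet cv R τ t).filter (fun q => q.1 + q.2 = n)).card ≤
      R * R * 144 * 144 := by
  set m := p ^ 2 with hm
  have hm0 : 0 < m := by positivity
  set T : Finset ((ℕ × ℕ) × (Idx p × Idx p)) :=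
    (Ico 1 R ×ˢ Ico 1 R) ×ˢ prs cv (n - 2 * τ) with hT
  set F : ((ℕ × ℕ) × (Idx p × Idx p)) → Finset (ℕ × ℕ) := fun q =>
    (prs cv ((n - 2 * τ - (q.1.1 + q.1.2) * (m * m) - cv.w q.2.1 - cv.w q.2.2) / m +
      (m - 1) * (t q.2.1 + t q.2.2))).image
      (fun r => (el cv τ t q.1.1 q.2.1 r.1, el cv τ t q.1.2 q.2.2 r.2)) with hF
  have hsub : (scaleSet cv R τ t ×ˢ scaleSet cv R τ t).filter (fun q => q.1 + q.2 = n) ⊆
      T.biUnion F := by
    rintro ⟨a, b⟩ hq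
    simp only [mem_filter, mem_product] at hq
    obtain ⟨⟨ha, hb⟩, hab⟩ := hq
    obtain ⟨s, ι, κ, h1, h2, rfl⟩ := (mem_scaleSet cv).1 ha
    obtain ⟨s', ι', κ', h3, h4, rfl⟩ := (mem_scaleSet cv).1 hb
    rw [mem_biUnion]
    have hsum : n = 2 * τ + (cv.w ι + cv.w ι') +
        m * (((cv.w κ + t ι) % m + (cv.w κ' + t ι') % m) + m * (s + s')) := by
      rw [← hab]
      unfold el
      rw [← hm]
      ring
    refine ⟨((s, s'), (ι, ι')), ?_, ?_⟩
    · rw [hT]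
      simp only [mem_product, mem_Ico]
      refine ⟨⟨⟨h1, h2⟩, ⟨h3, h4⟩⟩, ?_⟩
      unfold prs
      simp only [mem_filter, mem_univ, true_and]
      have : n - 2 * τ = (cv.w ι + cv.w ι') +
        m * (((cv.w κ + t ι) % m + (cv.w κ' + t ι') % m) + m * (s + s')) := by omega
      rw [this, ← hm]
      exact (Nat.modEq_iff_dvd' (by omega)).2 (by simp)
    · rw [hF]
      simp only [mem_image]
      refine ⟨(κ, κ'), ?_, rfl⟩
      unfold prs
      simp only [mem_filter, mem_univ, true_and]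
      have hval : (n - 2 * τ - (s + s') * (m * m) - cv.w ι - cv.w ι') / m =
          (cv.w κ + t ι) % m + (cv.w κ' + t ι') % m := by
        have : n - 2 * τ - (s + s') * (m * m) - cv.w ι - cv.w ι' =
            m * ((cv.w κ + t ι) % m + (cv.w κ' + t ι') % m) := by
          have e : m * (((cv.w κ + t ι) % m + (cv.w κ' + t ι') % m) + m * (s + s')) =
            m * ((cv.w κ + t ι) % m + (cv.w κ' + t ι') % m) + (s + s') * (m * m) := by ring
          rw [e] at hsum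
          omega
        rw [this, Nat.mul_div_cancel_left _ hm0]
      rw [hval, ← hm]
      have e1 : (cv.w κ + t ι) % m + (cv.w κ' + t ι') % m ≡
          (cv.w κ + t ι) + (cv.w κ' + t ι') [MOD m] :=
        Nat.ModEq.add (Nat.mod_modEq _ _) (Nat.mod_modEq _ _)
      have e2 := Nat.ModEq.add_right ((m - 1) * (t ι + t ι')) e1
      refine Nat.ModEq.symm (e2.trans ?_)
      have e3 : (cv.w κ + t ι) + (cv.w κ' + t ι') + (m - 1) * (t ι + t ι') =
          cv.w κ + cv.w κ' + m * (t ι + t ι') := by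
        obtain ⟨m', hm'⟩ : ∃ m', m = m' + 1 := ⟨m - 1, by omega⟩
        rw [hm', Nat.add_sub_cancel]
        ring
      rw [e3]
      exact (Nat.modEq_iff_dvd' (by omega)).2 (by simp) |>.symm
  refine (card_le_card hsub).trans (card_biUnion_le.trans ?_)
  calc ∑ q ∈ T, (F q).card ≤ ∑ q ∈ T, 144 :=
        sum_le_sum fun q _ => card_image_le.trans (prs_card cv _)
    _ = T.card * 144 := by rw [sum_const, smul_eq_mul]
    _ ≤ (R * R * 144) * 144 := by
        refine Nat.mul_le_mul_right _ ?_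
        rw [hT, card_product, card_product]
        refine Nat.mul_le_mul ?_ (prs_card cv _)
        refine Nat.mul_le_mul ?_ ?_ <;> simp

end Pool.Agent.R447.SB
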