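import Pool.Agent.R447.SB.Seq

/-!
Selection of good parameters for all scales.
-/

namespace Pool.Agent.R447.SB

open Finset

lemma SS_congr (R j0 j : ℕ) {x x' : ∀ i, Om i} (h : ∀ i < j, x i = x' i) :
    SS R j0 j x = SS R j0 j x' := by
  unfold SS
  refine biUnion_congr rfl fun i hi => ?_
  rw [h i (mem_Ico.1 hi).2]

/-- the class condition -/
def ClassOK (R j0 j μ : ℕ) (x : ∀ i, Om i) : Prop :=
  ∀ ρ, ((SS R j0 j x).filter (fun a => a ≡ ρ [MOD pr j ^ 2])).card ≤ μ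

lemma ClassOK_congr (R j0 j μ : ℕ) {x x' : ∀ i, Om i} (h : ∀ i < j, x i = x' i) :
    ClassOK R j0 j μ x ↔ ClassOK R j0 j μ x' := by
  unfold ClassOK
  rw [SS_congr R j0 j h]

lemma prod_rel {R j0 j L : ℕ} {E : ℝ} (hG : 4 * ((R : ℝ) + 2) * E ≤ 4 ^ L) (hE : 0 ≤ E) :
    ∏ i ∈ Irel R j0 j, (1 + ((R : ℝ) + 2) * ((pr i : ℝ) ^ 2 / ((pr j ^ 2 : ℕ) : ℝ)) * E) ≤
      2 * 4 ^ (L ^ 2) := by
  have h1 : ∏ i ∈ Irel R j0 j, (1 + ((R : ℝ) + 2) * ((pr i : ℝ) ^ 2 / ((pr j ^ 2 : ℕ) : ℝ)) * E) ≤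
      ∏ i ∈ Irel R j0 j, (1 + (4 : ℝ) ^ L / 4 ^ (j - 1 - i + 1)) := by
    refine prod_le_prod (fun i _ => by positivity) (fun i hi => ?_)
    have hi' := mem_Ico.1 (mem_filter.1 hi).1
    have e1 : (pr i : ℝ) ^ 2 ≤ 4 ^ (i + 5) := by
      have : (pr i : ℝ) ≤ 2 ^ (i + 5) := by exact_mod_cast pr_le i
      calc (pr i : ℝ) ^ 2 ≤ ((2 : ℝ) ^ (i + 5)) ^ 2 := by gcongr
        _ = 4 ^ (i + 5) := by rw [← pow_mul, mul_comm, pow_mul]; norm_num
    have e2 : (4 : ℝ) ^ (j + 4) ≤ ((pr j ^ 2 : ℕ) : ℝ) := by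
      have : (2 : ℝ) ^ (j + 4) ≤ pr j := by exact_mod_cast (pr_gt j).le
      calc (4 : ℝ) ^ (j + 4) = ((2 : ℝ) ^ (j + 4)) ^ 2 := by rw [← pow_mul, mul_comm, pow_mul]; norm_num
        _ ≤ (pr j : ℝ) ^ 2 := by gcongr
        _ = _ := by push_cast; ring
    have e3 : (pr i : ℝ) ^ 2 / ((pr j ^ 2 : ℕ) : ℝ) ≤ 4 / 4 ^ (j - 1 - i + 1) := by
      calc (pr i : ℝ) ^ 2 / ((pr j ^ 2 : ℕ) : ℝ) ≤ 4 ^ (i + 5) / 4 ^ (j + 4) := by gcongr
        _ = 4 / 4 ^ (j - 1 - i + 1) := by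
            rw [div_eq_div_iff (by positivity) (by positivity), ← pow_add]
            have : i + 5 + (j - 1 - i + 1) = (j + 4) + 1 := by omega
            rw [this]
            ring
    have e4 : ((R : ℝ) + 2) * ((pr i : ℝ) ^ 2 / ((pr j ^ 2 : ℕ) : ℝ)) * E ≤
        4 ^ L / 4 ^ (j - 1 - i + 1) := by
      calc ((R : ℝ) + 2) * ((pr i : ℝ) ^ 2 / ((pr j ^ 2 : ℕ) : ℝ)) * E
          ≤ ((R : ℝ) + 2) * (4 / 4 ^ (j - 1 - i + 1)) * E := by gcongr
        _ = (4 * ((R : ℝ) + 2) * E) / 4 ^ (j - 1 - i + 1) := by ring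
        _ ≤ 4 ^ L / 4 ^ (j - 1 - i + 1) := by gcongr
    linarith
  have h2 : ∏ i ∈ Irel R j0 j, (1 + (4 : ℝ) ^ L / 4 ^ (j - 1 - i + 1)) ≤
      ∏ i ∈ range j, (1 + (4 : ℝ) ^ L / 4 ^ (j - 1 - i + 1)) := by
    have hsub : Irel R j0 j ⊆ range j := by
      intro i hi
      exact mem_range.2 (mem_Ico.1 (mem_filter.1 hi).1).2
    rw [← prod_sdiff hsub]
    refine le_mul_of_one_le_left (prod_nonneg fun _ _ => by positivity) ?_
    calc (1 : ℝ) = ∏ i ∈ range j \ Irel R j0 j, (1 : ℝ) := by simp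
      _ ≤ _ := by
          refine prod_le_prod (fun _ _ => zero_le_one) (fun i _ => ?_)
          have : (0 : ℝ) ≤ (4 : ℝ) ^ L / 4 ^ (j - 1 - i + 1) := by positivity
          linarith
  rw [prod_range_reflect (fun δ => (1 + (4 : ℝ) ^ L / 4 ^ (δ + 1))) j] at h2
  exact h1.trans (h2.trans (prod_bound L j))

open Classical in
lemma class_prob {R j0 j J L μ : ℕ} (hR : 0 < R) (hj : j < J) {B : ℝ} (hB : 1 ≤ B)
    (hG : 4 * ((R : ℝ) + 2) * Real.exp (36 * R * B ^ R) ≤ 4 ^ L) :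
    ((univ.filter (fun x : (∀ i : Fin J, Om i) => ¬ ClassOK R j0 j μ (ext Om x))).card : ℝ) ≤
      ((pr j ^ 2 : ℕ) : ℝ) * (2 * 4 ^ (L ^ 2)) / B ^ μ * Fintype.card (∀ i : Fin J, Om i) := by
  set q := pr j ^ 2 with hq
  set T : ℕ → (∀ i, Om i) → ℕ := fun ρ x =>
    ∑ i ∈ Irel R j0 j, cls (cvs i) R q ρ (x i).1 (fun ι => ((x i).2 ι : ℕ)) with hT
  set P : ℝ := ((Fintype.card (∀ i : Fin J, Om i) : ℕ) : ℝ) with hP
  have hP0 : 0 ≤ P := by positivity
  have hBμ : (0 : ℝ) < B ^ μ := by positivity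
  have hIJ : Irel R j0 j ⊆ range J := by
    intro i hi
    exact mem_range.2 ((mem_Ico.1 (mem_filter.1 hi).1).2.trans hj)
  have hmom : ∀ ρ, ∑ x : (∀ i : Fin J, Om i), B ^ (T ρ (ext Om x)) ≤ P * (2 * 4 ^ (L ^ 2)) := by
    intro ρ
    set f : ∀ i : Fin J, Om i → ℝ := fun i y => if (i : ℕ) ∈ Irel R j0 j then
      B ^ (cls (cvs i) R q ρ y.1 (fun ι => (y.2 ι : ℕ))) else 1 with hf
    have h1 : ∀ x : (∀ i : Fin J, Om i), B ^ (T ρ (ext Om x)) = ∏ i, f i (x i) := by
      intro x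
      set g : ℕ → ℝ := fun i => if i ∈ Irel R j0 j then
        B ^ (cls (cvs i) R q ρ (ext Om x i).1 (fun ι => ((ext Om x i).2 ι : ℕ))) else 1 with hg
      have h2 : ∏ i, f i (x i) = ∏ i : Fin J, g i := by
        refine prod_congr rfl fun i _ => ?_
        rw [hf, hg]
        simp only
        rw [ext_apply Om x i i.2]
      rw [h2, Fin.prod_univ_eq_prod_range g J, hg, prod_ite_mem, inter_eq_right.2 hIJ,
        prod_pow_eq_pow_sum]
    simp_rw [h1]
    rw [sum_pi (fun i : Fin J => Om i) f]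
    set h : Fin J → ℝ := fun i => if (i : ℕ) ∈ Irel R j0 j then
      (1 + ((R : ℝ) + 2) * ((pr i : ℝ) ^ 2 / (q : ℝ)) * Real.exp (36 * R * B ^ R)) else 1 with hh
    have h3 : ∀ i : Fin J, ∑ y, f i y ≤ Fintype.card (Om i) * h i := by
      intro i
      by_cases hi : (i : ℕ) ∈ Irel R j0 j
      · have hi1 := mem_filter.1 hi
        have hij : (i : ℕ) < j := (mem_Ico.1 hi1.1).2
        have e1 : h i = (1 + ((R : ℝ) + 2) * ((pr i : ℝ) ^ 2 / (q : ℝ)) *
            Real.exp (36 * R * B ^ R)) := by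
          rw [hh]; simp only [hi, if_true]
        have e2 : ∑ y, f i y = ∑ y : Om i, B ^ (cls (cvs i) R q ρ y.1 (fun ι => (y.2 ι : ℕ))) := by
          rw [hf]; simp only [hi, if_true]
        rw [e1, e2, om_sum i (fun τ t => B ^ (cls (cvs i) R q ρ τ (fun ι => (t ι : ℕ)))), card_om]
        refine class_moment (cvs i) (pr_pos i) hR (pr_coprime hij) ?_ ?_ hB
        · exact Nat.pow_le_pow_left (pr_lt hij).le 2
        · exact hi1.2
      · rw [hh, hf]
        simp [hi]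
    calc ∏ i, ∑ y, f i y ≤ ∏ i : Fin J, (Fintype.card (Om i) * h i) := by
          refine prod_le_prod (fun i _ => sum_nonneg fun y _ => ?_) (fun i _ => h3 i)
          rw [hf]
          simp only
          split_ifs <;> positivity
      _ = P * ∏ i : Fin J, h i := by
          rw [prod_mul_distrib, hP, Fintype.card_pi]
          push_cast
          rfl
      _ ≤ P * (2 * 4 ^ (L ^ 2)) := by
          refine mul_le_mul_of_nonneg_left ?_ hP0
          have e3 : ∏ i : Fin J, h i = ∏ i ∈ Irel R j0 j,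
              (1 + ((R : ℝ) + 2) * ((pr i : ℝ) ^ 2 / (q : ℝ)) * Real.exp (36 * R * B ^ R)) := by
            rw [hh, Fin.prod_univ_eq_prod_range (fun i : ℕ => if i ∈ Irel R j0 j then
              (1 + ((R : ℝ) + 2) * ((pr i : ℝ) ^ 2 / (q : ℝ)) * Real.exp (36 * R * B ^ R)) else 1) J,
              prod_ite_mem, inter_eq_right.2 hIJ]
          rw [e3]
          exact prod_rel hG (Real.exp_pos _).le
  have hsub : univ.filter (fun x : (∀ i : Fin J, Om i) => ¬ ClassOK R j0 j μ (ext Om x)) ⊆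
      (range q).biUnion (fun ρ => univ.filter (fun x : (∀ i : Fin J, Om i) =>
        μ ≤ T ρ (ext Om x))) := by
    intro x hx
    have hx' := (mem_filter.1 hx).2
    unfold ClassOK at hx'
    push Not at hx'
    obtain ⟨ρ, hρ⟩ := hx'
    have hq0 : 0 < q := by rw [hq]; exact pow_pos (pr_pos j) 2
    rw [mem_biUnion]
    refine ⟨ρ % q, mem_range.2 (Nat.mod_lt _ hq0), mem_filter.2 ⟨mem_univ _, ?_⟩⟩
    have h1 := class_split R j0 j (ext Om x) (ρ % q)
    have h2 : (SS R j0 j (ext Om x)).filter (fun a => a ≡ ρ % q [MOD q]) =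
        (SS R j0 j (ext Om x)).filter (fun a => a ≡ ρ [MOD q]) := by
      refine filter_congr fun a _ => ?_
      unfold Nat.ModEq
      rw [Nat.mod_mod]
    rw [← hq, h2] at h1
    rw [← hq] at hρ
    have h3 : μ < 1 + T (ρ % q) (ext Om x) := lt_of_lt_of_le hρ h1
    omega
  have hc : ∀ ρ, ((univ.filter (fun x : (∀ i : Fin J, Om i) => μ ≤ T ρ (ext Om x))).card : ℝ) ≤
      P * (2 * 4 ^ (L ^ 2)) / B ^ μ := by
    intro ρ
    rw [le_div_iff₀ hBμ]
    calc ((univ.filter (fun x : (∀ i : Fin J, Om i) => μ ≤ T ρ (ext Om x))).card : ℝ) * B ^ μ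
        = ∑ x ∈ univ.filter (fun x : (∀ i : Fin J, Om i) => μ ≤ T ρ (ext Om x)), B ^ μ := by
          rw [sum_const, nsmul_eq_mul]
      _ ≤ ∑ x ∈ univ.filter (fun x : (∀ i : Fin J, Om i) => μ ≤ T ρ (ext Om x)),
          B ^ (T ρ (ext Om x)) :=
          sum_le_sum fun x hx => pow_le_pow_right₀ hB (mem_filter.1 hx).2
      _ ≤ ∑ x : (∀ i : Fin J, Om i), B ^ (T ρ (ext Om x)) :=
          sum_le_sum_of_subset_of_nonneg (subset_univ _) fun _ _ _ => by positivity
      _ ≤ _ := hmom ρ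
  calc ((univ.filter (fun x : (∀ i : Fin J, Om i) => ¬ ClassOK R j0 j μ (ext Om x))).card : ℝ)
      ≤ ((∑ ρ ∈ range q, (univ.filter (fun x : (∀ i : Fin J, Om i) =>
        μ ≤ T ρ (ext Om x))).card : ℕ) : ℝ) := by
        exact_mod_cast (card_le_card hsub).trans card_biUnion_le
    _ ≤ ∑ ρ ∈ range q, P * (2 * 4 ^ (L ^ 2)) / B ^ μ := by
        push_cast
        exact sum_le_sum fun ρ _ => hc ρ
    _ = _ := by
        rw [sum_const, card_range, nsmul_eq_mul]
        ring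

open Classical in
lemma cross_prob_horizon {R j0 j J μ N0 K : ℕ} (hj : j < J) {B : ℝ} (hB : 1 ≤ B)
    (hBμ : B ^ μ * (4 * μ ^ 2) ≤ pr j) :
    ((univ.filter (fun x : (∀ i : Fin J, Om i) => ClassOK R j0 j μ (ext Om x) ∧
      BadCross (cvs j) (SS R j0 j (ext Om x)) R N0 K (ext Om x j).1
        (fun ι => ((ext Om x j).2 ι : ℕ)))).card : ℝ) ≤
      (N0 * (R * 6) * Real.exp (6 * (B * μ + 1)) / B ^ K) *
        Fintype.card (∀ i : Fin J, Om i) := by
  set c : ℝ := N0 * (R * 6) * Real.exp (6 * (B * μ + 1)) / B ^ K with hc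
  have hc0 : 0 ≤ c := by positivity
  set Q : (∀ i : Fin J, Om i) → Prop := fun x => ClassOK R j0 j μ (ext Om x) ∧
      BadCross (cvs j) (SS R j0 j (ext Om x)) R N0 K (ext Om x j).1
        (fun ι => ((ext Om x j).2 ι : ℕ)) with hQ
  set F : (∀ i : Fin J, Om i) → ℝ := fun x => if Q x then 1 else 0 with hF
  have h1 : ((univ.filter Q).card : ℝ) = ∑ x, F x := by
    rw [hF, ← sum_filter]
    simp
  have h2 := sum_update (fun i : Fin J => Om i) F ⟨j, hj⟩
  have hcardpos : (0 : ℝ) < Fintype.card (Om j) := by exact_mod_cast Fintype.card_pos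
  have h3 : ∀ x : (∀ i : Fin J, Om i), ∑ y : Om j, F (Function.update x ⟨j, hj⟩ y) ≤
      c * Fintype.card (Om j) := by
    intro x
    have e1 : ∀ y : Om j, ∀ i < j, ext Om (Function.update x ⟨j, hj⟩ y) i = ext Om x i := by
      intro y i hi
      rw [ext_apply Om _ i (by omega), ext_apply Om _ i (by omega), Function.update_of_ne]
      intro h
      have := congrArg Fin.val h
      simp only at this
      omega
    have e2 : ∀ y : Om j, ext Om (Function.update x ⟨j, hj⟩ y) j = y := by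
      intro y
      rw [ext_apply Om _ j hj, Function.update_self]
    have e3 : ∀ y : Om j, Q (Function.update x ⟨j, hj⟩ y) ↔ (ClassOK R j0 j μ (ext Om x) ∧
        BadCross (cvs j) (SS R j0 j (ext Om x)) R N0 K y.1 (fun ι => (y.2 ι : ℕ))) := by
      intro y
      rw [hQ]
      simp only
      rw [ClassOK_congr R j0 j μ (e1 y), SS_congr R j0 j (e1 y), e2]
    have e4 : ∑ y : Om j, F (Function.update x ⟨j, hj⟩ y) = ∑ y : Om j,
        if (ClassOK R j0 j μ (ext Om x) ∧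
        BadCross (cvs j) (SS R j0 j (ext Om x)) R N0 K y.1 (fun ι => (y.2 ι : ℕ))) then (1 : ℝ)
        else 0 := by
      refine sum_congr rfl fun y _ => ?_
      rw [hF]
      simp only
      simp only [e3 y]
    rw [e4]
    by_cases hOK : ClassOK R j0 j μ (ext Om x)
    · have e5 : ∑ y : Om j, (if (ClassOK R j0 j μ (ext Om x) ∧
        BadCross (cvs j) (SS R j0 j (ext Om x)) R N0 K y.1 (fun ι => (y.2 ι : ℕ))) then (1 : ℝ)
        else 0) = ∑ τ ∈ range (pr j ^ 2 * pr j ^ 2), ((univ.filter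
          (fun t : (Idx (pr j) → Fin (pr j ^ 2)) =>
            BadCross (cvs j) (SS R j0 j (ext Om x)) R N0 K τ (fun ι => (t ι : ℕ)))).card : ℝ) := by
        rw [om_sum j (fun τ t => if (ClassOK R j0 j μ (ext Om x) ∧
          BadCross (cvs j) (SS R j0 j (ext Om x)) R N0 K τ (fun ι => (t ι : ℕ))) then (1 : ℝ)
          else 0)]
        refine sum_congr rfl fun τ _ => ?_
        rw [← sum_filter]
        simp [hOK]
      rw [e5]
      calc _ ≤ ∑ τ ∈ range (pr j ^ 2 * pr j ^ 2), c *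
            Fintype.card (Idx (pr j) → Fin (pr j ^ 2)) := by
            refine sum_le_sum fun τ _ => ?_
            exact cross_prob (cvs j) (pr_pos j) _ μ hOK R N0 K τ hB hBμ
        _ = c * Fintype.card (Om j) := by
            rw [sum_const, card_range, nsmul_eq_mul, Fintype.card_prod, Fintype.card_fin]
            push_cast
            ring
    · simp only [hOK, false_and, if_false, sum_const_zero]
      positivity
  have h4 : (∑ x, F x) * Fintype.card (Om j) ≤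
      (c * Fintype.card (∀ i : Fin J, Om i)) * Fintype.card (Om j) := by
    have h2' : (∑ x, F x) * (Fintype.card (Om j) : ℝ) =
      ∑ x : (∀ i : Fin J, Om i), ∑ y : Om j, F (Function.update x ⟨j, hj⟩ y) := h2
    rw [h2']
    calc _ ≤ ∑ x : (∀ i : Fin J, Om i), c * Fintype.card (Om j) := sum_le_sum fun x _ => h3 x
      _ = _ := by
          rw [sum_const, card_univ, nsmul_eq_mul]
          ring
  rw [h1]
  exact le_of_mul_le_mul_right h4 hcardpos

lemma half_sum (J : ℕ) : ∑ j ∈ range J, (1 / 2 : ℝ) ^ (j + 1) = 1 - (1 / 2) ^ J := by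
  induction J with
  | zero => simp
  | succ J ih => rw [sum_range_succ, ih]; ring

/-- the bad event at scale `j` -/
def BadAll (R j0 : ℕ) (μ K N0 : ℕ → ℕ) (j : ℕ) (x : ∀ i, Om i) : Prop :=
  j0 ≤ j ∧ (¬ ClassOK R j0 j (μ j) x ∨ (ClassOK R j0 j (μ j) x ∧
    BadCross (cvs j) (SS R j0 j x) R (N0 j) (K j) (x j).1 (fun ι => ((x j).2 ι : ℕ))))

/-- There are parameters which are good at all scales. -/
theorem exists_good (R j0 : ℕ) (hR : 0 < R) (μ K L N0 : ℕ → ℕ) (B1 B2 : ℕ → ℝ)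
    (hB1 : ∀ j, 1 ≤ B1 j) (hB2 : ∀ j, 1 ≤ B2 j)
    (hG : ∀ j, j0 ≤ j → 4 * ((R : ℝ) + 2) * Real.exp (36 * R * (B1 j) ^ R) ≤ 4 ^ (L j))
    (hBμ : ∀ j, j0 ≤ j → (B2 j) ^ (μ j) * (4 * (μ j) ^ 2) ≤ pr j)
    (hb1 : ∀ j, j0 ≤ j → ((pr j ^ 2 : ℕ) : ℝ) * (2 * 4 ^ ((L j) ^ 2)) / (B1 j) ^ (μ j) ≤
      (1 / 2) ^ (j + 2))
    (hb2 : ∀ j, j0 ≤ j → ((N0 j : ℝ) * (R * 6) * Real.exp (6 * (B2 j * μ j + 1)) / (B2 j) ^ (K j)) ≤
      (1 / 2) ^ (j + 2)) :
    ∃ x : ∀ i, Om i, ∀ j, j0 ≤ j → ClassOK R j0 j (μ j) x ∧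
      ¬ BadCross (cvs j) (SS R j0 j x) R (N0 j) (K j) (x j).1 (fun ι => ((x j).2 ι : ℕ)) := by
  classical
  obtain ⟨x, hx⟩ := select Om (BadAll R j0 μ K N0)
    (by
      intro j x y hxy h
      refine ⟨h.1, ?_⟩
      have h1 : ∀ i < j, x i = y i := fun i hi => hxy i hi.le
      have h2 := h.2
      rw [ClassOK_congr R j0 j (μ j) h1, SS_congr R j0 j h1, hxy j le_rfl] at h2
      exact h2)
    (fun j => (1 / 2) ^ (j + 1))
    (by
      intro J
      rw [half_sum]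
      have : (0 : ℝ) < (1 / 2) ^ J := by positivity
      linarith)
    (by
      intro J j hj
      have hP0 : (0 : ℝ) ≤ Fintype.card (∀ i : Fin J, Om i) := by positivity
      by_cases hj0 : j0 ≤ j
      · have h1 := class_prob (j0 := j0) (μ := μ j) hR hj (hB1 j) (hG j hj0)
        have h2 := cross_prob_horizon (R := R) (j0 := j0) (N0 := N0 j) (K := K j) hj (hB2 j)
          (hBμ j hj0)
        have hsub : (univ.filter (fun x : (∀ i : Fin J, Om i) => BadAll R j0 μ K N0 j (ext Om x))) ⊆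
            (univ.filter (fun x : (∀ i : Fin J, Om i) => ¬ ClassOK R j0 j (μ j) (ext Om x))) ∪
            (univ.filter (fun x : (∀ i : Fin J, Om i) => ClassOK R j0 j (μ j) (ext Om x) ∧
              BadCross (cvs j) (SS R j0 j (ext Om x)) R (N0 j) (K j) (ext Om x j).1
                (fun ι => ((ext Om x j).2 ι : ℕ)))) := by
          intro x hx
          rcases (mem_filter.1 hx).2.2 with h | h
          · exact mem_union_left _ (mem_filter.2 ⟨mem_univ _, h⟩)
          · exact mem_union_right _ (mem_filter.2 ⟨mem_univ _, h⟩)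
        have h3 := (card_le_card hsub).trans (card_union_le _ _)
        have h4 : ((univ.filter (fun x : (∀ i : Fin J, Om i) =>
            BadAll R j0 μ K N0 j (ext Om x))).card : ℝ) ≤
            ((univ.filter (fun x : (∀ i : Fin J, Om i) => ¬ ClassOK R j0 j (μ j) (ext Om x))).card : ℝ) +
            ((univ.filter (fun x : (∀ i : Fin J, Om i) => ClassOK R j0 j (μ j) (ext Om x) ∧
              BadCross (cvs j) (SS R j0 j (ext Om x)) R (N0 j) (K j) (ext Om x j).1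
                (fun ι => ((ext Om x j).2 ι : ℕ)))).card : ℝ) := by
          exact_mod_cast h3
        refine h4.trans ?_
        have h5 := mul_le_mul_of_nonneg_right (hb1 j hj0) hP0
        have h6 := mul_le_mul_of_nonneg_right (hb2 j hj0) hP0
        have h7 : (1 / 2 : ℝ) ^ (j + 1) = (1 / 2) ^ (j + 2) + (1 / 2) ^ (j + 2) := by ring
        rw [h7, add_mul]
        exact add_le_add (h1.trans h5) (h2.trans h6)
      · have : (univ.filter (fun x : (∀ i : Fin J, Om i) => BadAll R j0 μ K N0 j (ext Om x))) = ∅ := by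
          rw [filter_eq_empty_iff]
          rintro x _ ⟨h, _⟩
          exact hj0 h
        rw [this]
        simp only [card_empty, Nat.cast_zero]
        positivity)
  refine ⟨x, fun j hj => ?_⟩
  have h := hx j
  by_cases h1 : ClassOK R j0 j (μ j) x
  · exact ⟨h1, fun h2 => h ⟨hj, Or.inr ⟨h1, h2⟩⟩⟩
  · exact absurd ⟨hj, Or.inl h1⟩ h

end Pool.Agent.R447.SB
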