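import Pool.Agent.R447.SB.Class

/-!
The sequence of scales and the selection of the parameters.
-/

namespace Pool.Agent.R447.SB

open Finset

/-- the prime of scale `i` -/
noncomputable def pr (i : ℕ) : ℕ :=
  (Nat.exists_prime_lt_and_le_two_mul (2 ^ (i + 4)) (by positivity)).choose

lemma pr_prime (i : ℕ) : (pr i).Prime :=
  (Nat.exists_prime_lt_and_le_two_mul (2 ^ (i + 4)) (by positivity)).choose_spec.1

lemma pr_gt (i : ℕ) : 2 ^ (i + 4) < pr i :=
  (Nat.exists_prime_lt_and_le_two_mul (2 ^ (i + 4)) (by positivity)).choose_spec.2.1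

lemma pr_le (i : ℕ) : pr i ≤ 2 ^ (i + 5) := by
  have h := (Nat.exists_prime_lt_and_le_two_mul (2 ^ (i + 4)) (by positivity)).choose_spec.2.2
  calc pr i ≤ 2 * 2 ^ (i + 4) := h
    _ = 2 ^ (i + 5) := by ring

lemma pr_pos (i : ℕ) : 0 < pr i := (pr_prime i).pos

lemma pr_ge (i : ℕ) : 17 ≤ pr i := by
  have h1 := pr_gt i
  have h2 : 2 ^ 4 ≤ 2 ^ (i + 4) := Nat.pow_le_pow_right (by norm_num) (by omega)
  omega

lemma pr_lt {i j : ℕ} (h : i < j) : pr i < pr j := by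
  calc pr i ≤ 2 ^ (i + 5) := pr_le i
    _ ≤ 2 ^ (j + 4) := Nat.pow_le_pow_right (by norm_num) (by omega)
    _ < pr j := pr_gt j

lemma pr_coprime {i j : ℕ} (h : i < j) : Nat.Coprime (pr i ^ 2) (pr j ^ 2) := by
  apply Nat.Coprime.pow
  rw [Nat.coprime_primes (pr_prime i) (pr_prime j)]
  exact (pr_lt h).ne

/-- the curve basis of scale `i` -/
noncomputable def cvs (i : ℕ) : Curve (pr i) :=
  haveI : Fact (pr i).Prime := ⟨pr_prime i⟩
  (exists_curve (pr_ge i)).some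

/-- the parameters of scale `i` -/
abbrev Om (i : ℕ) : Type := Fin (pr i ^ 2 * pr i ^ 2) × (Idx (pr i) → Fin (pr i ^ 2))

instance om_nonempty (i : ℕ) : Nonempty (Om i) := by
  have h := pr_pos i
  exact ⟨(⟨0, by positivity⟩, fun _ => ⟨0, by positivity⟩)⟩

/-- the set of scale `i` -/
noncomputable def AS (R i : ℕ) (y : Om i) : Finset ℕ :=
  scaleSet (cvs i) R (y.1 : ℕ) (fun ι => (y.2 ι : ℕ))

/-- the union of the sets of the scales from `j0` to `j - 1` -/
noncomputable def SS (R j0 j : ℕ) (x : ∀ i, Om i) : Finset ℕ :=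
  (Ico j0 j).biUnion (fun i => AS R i (x i))

lemma card_om (i : ℕ) : (Fintype.card (Om i) : ℝ) =
    ((pr i : ℝ) ^ 2 * pr i ^ 2) * ((pr i : ℝ) ^ 2) ^ (6 * pr i) := by
  rw [Fintype.card_prod, Fintype.card_fun, card_idx, Fintype.card_fin, Fintype.card_fin]
  push_cast
  ring

lemma om_sum (i : ℕ) (f : ℕ → (Idx (pr i) → Fin (pr i ^ 2)) → ℝ) :
    ∑ y : Om i, f (y.1 : ℕ) y.2 = ∑ τ ∈ range (pr i ^ 2 * pr i ^ 2),
      ∑ t : (Idx (pr i) → Fin (pr i ^ 2)), f τ t := by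
  rw [Fintype.sum_prod_type]
  exact Fin.sum_univ_eq_sum_range (fun τ => ∑ t : (Idx (pr i) → Fin (pr i ^ 2)), f τ t) _

/-- the relevant scales for the classes modulo `pr j ^ 2` -/
noncomputable def Irel (R j0 j : ℕ) : Finset ℕ :=
  (Ico j0 j).filter (fun i => pr j ^ 2 ≤ (R + 1) * (pr i ^ 2 * pr i ^ 2))

lemma class_split (R j0 j : ℕ) (x : ∀ i, Om i) (ρ : ℕ) :
    ((SS R j0 j x).filter (fun a => a ≡ ρ [MOD pr j ^ 2])).card ≤
      1 + ∑ i ∈ Irel R j0 j, cls (cvs i) R (pr j ^ 2) ρ (x i).1 (fun ι => ((x i).2 ι : ℕ)) := by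
  classical
  set q := pr j ^ 2 with hq
  have hsub : (SS R j0 j x).filter (fun a => a ≡ ρ [MOD q]) ⊆ {ρ % q} ∪
      (Irel R j0 j).biUnion (fun i => (AS R i (x i)).filter (fun a => a ≡ ρ [MOD q])) := by
    intro a ha
    rw [mem_filter] at ha
    obtain ⟨ha1, ha2⟩ := ha
    unfold SS at ha1
    rw [mem_biUnion] at ha1
    obtain ⟨i, hi, hai⟩ := ha1
    rw [mem_union, mem_biUnion]
    by_cases h : q ≤ (R + 1) * (pr i ^ 2 * pr i ^ 2)
    · right
      exact ⟨i, mem_filter.2 ⟨hi, h⟩, mem_filter.2 ⟨hai, ha2⟩⟩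
    · left
      have h1 := scale_upper (cvs i) (x i).1.2 hai
      rw [mem_singleton]
      have h2 : a < q := by omega
      unfold Nat.ModEq at ha2
      rw [← ha2, Nat.mod_eq_of_lt h2]
  refine (card_le_card hsub).trans ((card_union_le _ _).trans ?_)
  rw [card_singleton]
  exact Nat.add_le_add_left card_biUnion_le _

lemma prod_bound (L n : ℕ) :
    ∏ δ ∈ range n, (1 + (4 : ℝ) ^ L / 4 ^ (δ + 1)) ≤ 2 * 4 ^ (L ^ 2) := by
  have h1 : ∀ k, ∏ δ ∈ range (L + k), (1 + (4 : ℝ) ^ L / 4 ^ (δ + 1)) ≤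
      (4 ^ L) ^ L * (2 - 1 / 4 ^ k) := by
    intro k
    induction k with
    | zero =>
      have h2 : ∏ δ ∈ range (L + 0), (1 + (4 : ℝ) ^ L / 4 ^ (δ + 1)) ≤ (4 ^ L) ^ L := by
        rw [add_zero]
        calc ∏ δ ∈ range L, (1 + (4 : ℝ) ^ L / 4 ^ (δ + 1)) ≤ ∏ δ ∈ range L, (4 : ℝ) ^ L := by
              refine prod_le_prod (fun δ _ => by positivity) (fun δ hδ => ?_)
              have hδ' := mem_range.1 hδ
              obtain ⟨L', rfl⟩ : ∃ L', L = L' + 1 := ⟨L - 1, by omega⟩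
              have h3 : (4 : ℝ) ^ (L' + 1) / 4 ^ (δ + 1) ≤ 4 ^ L' := by
                rw [div_le_iff₀ (by positivity), ← pow_add]
                exact pow_le_pow_right₀ (by norm_num) (by omega)
              have h4 : (1 : ℝ) ≤ 4 ^ L' := one_le_pow₀ (by norm_num)
              have h5 : (4 : ℝ) ^ (L' + 1) = 4 * 4 ^ L' := by ring
              rw [h5] at h3 ⊢
              linarith
          _ = (4 ^ L) ^ L := by rw [prod_const, card_range]
      have h6 : (2 : ℝ) - 1 / 4 ^ 0 = 1 := by norm_num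
      rw [h6, mul_one]
      exact h2
    | succ k ih =>
      rw [← add_assoc, prod_range_succ]
      have h2 : (1 + (4 : ℝ) ^ L / 4 ^ (L + k + 1)) = 1 + (1 / 4 ^ k) / 4 := by
        field_simp
        ring
      rw [h2]
      set y : ℝ := 1 / 4 ^ k with hy
      have hy0 : 0 ≤ y := by positivity
      have h3 : (1 : ℝ) / 4 ^ (k + 1) = y / 4 := by
        rw [hy]
        field_simp
        ring
      rw [h3]
      calc _ ≤ ((4 : ℝ) ^ L) ^ L * (2 - y) * (1 + y / 4) :=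
            mul_le_mul_of_nonneg_right ih (by positivity)
        _ = ((4 : ℝ) ^ L) ^ L * ((2 - y) * (1 + y / 4)) := by ring
        _ ≤ ((4 : ℝ) ^ L) ^ L * (2 - y / 4) := by
            refine mul_le_mul_of_nonneg_left ?_ (by positivity)
            nlinarith
  have h2 : ∏ δ ∈ range n, (1 + (4 : ℝ) ^ L / 4 ^ (δ + 1)) ≤
      ∏ δ ∈ range (L + n), (1 + (4 : ℝ) ^ L / 4 ^ (δ + 1)) := by
    rw [add_comm L n, prod_range_add]
    refine le_mul_of_one_le_right (prod_nonneg fun δ _ => by positivity) ?_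
    calc (1 : ℝ) = ∏ δ ∈ range L, (1 : ℝ) := by simp
      _ ≤ _ := by
          refine prod_le_prod (fun _ _ => zero_le_one) (fun δ _ => ?_)
          have : (0 : ℝ) ≤ (4 : ℝ) ^ L / 4 ^ (n + δ + 1) := by positivity
          linarith
  refine h2.trans ((h1 n).trans ?_)
  have h3 : ((4 : ℝ) ^ L) ^ L = 4 ^ (L ^ 2) := by
    rw [← pow_mul, pow_two]
  rw [h3]
  have h4 : (0 : ℝ) ≤ 1 / 4 ^ n := by positivity
  have h5 : (0 : ℝ) ≤ 4 ^ (L ^ 2) := by positivity
  nlinarith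

end Pool.Agent.R447.SB
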